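import Pool.Agent.LibKh98.Cons
import Pool.Agent.LibKG64.Defs

set_option autoImplicit false
set_option linter.unusedSectionVars false

/-!
# The spectral flag of `G = ∑ a_p a_pᵀ` and the cuts of all batches

`Q i` is the spectral projection of `G` on the eigenvalues `≥ W^(i+1) / W^12`; the batch `s` has the
density `W^(-s)`, its dense part is `Q (s + 12)`, its old part is `1 - Q s`.
-/

namespace KH98

open Matrix Finset Pool.Agent.LibKG64

noncomputable section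

variable {m : Type*} [Fintype m] [DecidableEq m]
variable {ι : Type*} [Fintype ι] [DecidableEq ι]

/-- Spectral flag. -/
structure SFlag (a : ι → m → ℝ) (W : ℝ) (Q : ℕ → Matrix m m ℝ) : Prop where
  flag : Flag Q
  comm : ∀ i, Gr a univ * Q i = Q i * Gr a univ
  low : ∀ i v, W ^ (i + 1) / W ^ 12 * (Q i *ᵥ v ⬝ᵥ Q i *ᵥ v) ≤ qf (Gr a univ) (Q i *ᵥ v)
  up : ∀ i v, qf (Gr a univ) ((1 - Q i) *ᵥ v) ≤
    W ^ (i + 1) / W ^ 12 * ((1 - Q i) *ᵥ v ⬝ᵥ (1 - Q i) *ᵥ v)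

theorem exists_sflag (a : ι → m → ℝ) {W : ℝ} (hW : 1 ≤ W) : ∃ Q : ℕ → Matrix m m ℝ, SFlag a W Q := by
  obtain ⟨Q, h1, h2, h3, h4, h5, h6⟩ := exists_specproj (G := Gr a univ) (Gr_symm a univ)
    (fun i => W ^ (i + 1) / W ^ 12) (by
      intro i j hij
      have h0 : 0 < W := by linarith
      simp only
      apply div_le_div_of_nonneg_right _ (by positivity)
      exact pow_le_pow_right₀ hW (by omega))
  refine ⟨Q, ⟨h1, ?_⟩, h4, h5, h6⟩
  intro i j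
  rcases le_total i j with h | h
  · rw [h2 i j h, max_eq_right h]
  · rw [h3 j i h, max_eq_left h]

namespace SFlag

variable {a : ι → m → ℝ} {W : ℝ} {Q : ℕ → Matrix m m ℝ}

lemma idem (h : SFlag a W Q) (i : ℕ) : Q i * Q i = Q i := by
  rw [h.flag.mul, max_self]

lemma sq_proj (h : SFlag a W Q) (i : ℕ) (v : m → ℝ) :
    Q i *ᵥ v ⬝ᵥ Q i *ᵥ v ≤ v ⬝ᵥ v ∧ (1 - Q i) *ᵥ v ⬝ᵥ (1 - Q i) *ᵥ v ≤ v ⬝ᵥ v := by
  have hs := h.flag.symm i
  have hi := h.idem i
  have hs' : (1 - Q i)ᵀ = 1 - Q i := by rw [Matrix.transpose_sub, Matrix.transpose_one, hs]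
  have hi' : (1 - Q i) * (1 - Q i) = 1 - Q i := by
    rw [Matrix.sub_mul, Matrix.one_mul, Matrix.mul_sub, Matrix.mul_one, hi, sub_self, sub_zero]
  have h1 : Q i *ᵥ v ⬝ᵥ Q i *ᵥ v = v ⬝ᵥ (Q i *ᵥ v) := by
    rw [← dot_mulVec hs, Matrix.mulVec_mulVec, hi]
  have h2 : (1 - Q i) *ᵥ v ⬝ᵥ (1 - Q i) *ᵥ v = v ⬝ᵥ ((1 - Q i) *ᵥ v) := by
    rw [← dot_mulVec hs', Matrix.mulVec_mulVec, hi']
  have h3 : v ⬝ᵥ v = Q i *ᵥ v ⬝ᵥ Q i *ᵥ v + (1 - Q i) *ᵥ v ⬝ᵥ (1 - Q i) *ᵥ v := by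
    rw [h1, h2, ← dotProduct_add, ← Matrix.add_mulVec, add_sub_cancel, Matrix.one_mulVec]
  have h4 := dot_self_nonneg (Q i *ᵥ v)
  have h5 := dot_self_nonneg ((1 - Q i) *ᵥ v)
  constructor <;> linarith

/-- The old part of a row: `∑_p (O_s a_p)_j² ≤ W^(s+1) / W^12`. -/
theorem old_row (h : SFlag a W Q) (hW : 1 ≤ W) (s : ℕ) (j : m) :
    ∑ p, (((1 - Q s) *ᵥ a p) j) ^ 2 ≤ W ^ (s + 1) / W ^ 12 := by
  have hs' : (1 - Q s)ᵀ = 1 - Q s := by
    rw [Matrix.transpose_sub, Matrix.transpose_one, h.flag.symm]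
  have h1 : ∀ p, ((1 - Q s) *ᵥ a p) j = a p ⬝ᵥ ((1 - Q s) *ᵥ Pi.single j 1) := by
    intro p
    rw [dot_mulVec hs', dotProduct_single_one]
  simp only [h1]
  rw [← qf_Gr]
  refine (h.up s _).trans ?_
  have h2 := (h.sq_proj s (Pi.single j 1)).2
  have h3 : (Pi.single j 1 : m → ℝ) ⬝ᵥ Pi.single j 1 = 1 := by simp
  rw [h3] at h2
  have h0 : 0 < W := by linarith
  have h4 : 0 ≤ W ^ (s + 1) / W ^ 12 := by positivity
  nlinarith

/-- The cuts of all batches from (S1). -/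
theorem cut (h : SFlag a W Q) (hW : 1 ≤ W) {η : ℝ} (hη0 : 0 ≤ η) (hη : η ≤ 1 / 4) (bt : ι → ℕ)
    (T : ℕ) (hS1 : ∀ s ≤ T, ∀ v, |qf (Gr a (univ.filter (fun p => s < bt p))) v
      - (1 / W) ^ s * qf (Gr a univ) v| ≤ η * ((1 / W) ^ s * qf (Gr a univ) v + W * (v ⬝ᵥ v)))
    (s : ℕ) (hs : s ≤ T) :
    Cut a (univ.filter (fun p => s < bt p)) (univ.filter (fun p => bt p = s)) (Q (s + 12))
      ((1 / W) ^ s) W W η := by
  have h0 : 0 < W := by linarith
  have hpi : 0 < (1 / W) ^ s := by positivity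
  refine ⟨h.flag.symm _, h.idem _, h.comm _, hpi, hW, h0, hη0, hη, ?_, ?_, hS1 s hs, ?_⟩
  · intro v
    have h1 := h.low (s + 12) v
    have h2 : W ^ (s + 12 + 1) / W ^ 12 = W * W ^ s := by
      rw [show s + 12 + 1 = (s + 1) + 12 by ring, pow_add W (s + 1) 12, pow_succ]
      field_simp
    rw [h2] at h1
    have h3 : (1 / W) ^ s * (W * W ^ s) = W := by
      rw [one_div, inv_pow]
      field_simp
    calc W * (Q (s + 12) *ᵥ v ⬝ᵥ Q (s + 12) *ᵥ v)
        = (1 / W) ^ s * (W * W ^ s * (Q (s + 12) *ᵥ v ⬝ᵥ Q (s + 12) *ᵥ v)) := by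
          rw [← mul_assoc, h3]
      _ ≤ _ := mul_le_mul_of_nonneg_left h1 hpi.le
  · intro v
    have h1 := h.up (s + 12) v
    have h2 : W ^ (s + 12 + 1) / W ^ 12 = W * W ^ s := by
      rw [show s + 12 + 1 = (s + 1) + 12 by ring, pow_add W (s + 1) 12, pow_succ]
      field_simp
    rw [h2] at h1
    have h3 : (1 / W) ^ s * (W * W ^ s) = W := by
      rw [one_div, inv_pow]
      field_simp
    calc (1 / W) ^ s * qf (Gr a univ) ((1 - Q (s + 12)) *ᵥ v)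
        ≤ (1 / W) ^ s * (W * W ^ s * ((1 - Q (s + 12)) *ᵥ v ⬝ᵥ (1 - Q (s + 12)) *ᵥ v)) :=
          mul_le_mul_of_nonneg_left h1 hpi.le
      _ = _ := by rw [← mul_assoc, h3]
  · intro v
    have hG := qf_Gr_nonneg a univ v
    have hv := mul_nonneg h0.le (dot_self_nonneg v)
    rcases Nat.eq_zero_or_pos s with h00 | hpos
    · subst h00
      have h1 := qf_Gr_mono a (Finset.subset_univ (univ.filter (fun p => bt p = 0))) v
      have h2 : (1 + η) * (W * (1 / W) ^ 0) * qf (Gr a univ) v ≥ qf (Gr a univ) v := by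
        rw [pow_zero, mul_one]
        nlinarith [mul_nonneg hη0 hG, mul_nonneg (sub_nonneg.mpr hW) hG,
          mul_nonneg (mul_nonneg hη0 (sub_nonneg.mpr hW)) hG]
      have h3 : 0 ≤ η * W * (v ⬝ᵥ v) := by
        rw [mul_assoc]
        exact mul_nonneg hη0 hv
      linarith
    · obtain ⟨s', rfl⟩ : ∃ s', s = s' + 1 := ⟨s - 1, by omega⟩
      have h1 : qf (Gr a (univ.filter (fun p => bt p = s' + 1))) v
          ≤ qf (Gr a (univ.filter (fun p => s' < bt p))) v := by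
        apply qf_Gr_mono
        intro p hp
        simp only [Finset.mem_filter, Finset.mem_univ, true_and] at hp ⊢
        omega
      have h2 := (abs_le.mp (hS1 s' (by omega) v)).2
      have h3 : W * (1 / W) ^ (s' + 1) = (1 / W) ^ s' := by
        rw [pow_succ]
        field_simp
      rw [h3]
      nlinarith

end SFlag

end
end KH98
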