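import Pool.Agent.LibKh98.Halv

set_option autoImplicit false
set_option linter.unusedSectionVars false

/-!
# Consequences of the sampling estimate (S1)

`Gr a U` is the Gram matrix `∑_{p ∈ U} a_p a_pᵀ`.  `Q` is a spectral projection of `Gr a univ`, `U` is
a sample of density `π`.  `Bi` is the inverse of `Q G_U Q` on the range of `Q`, `SS` is the matrix
`(1 - Q) G_U Bi`.
-/

namespace KH98

open Matrix Finset

noncomputable section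

variable {m : Type*} [Fintype m] [DecidableEq m]
variable {ι : Type*} [Fintype ι] [DecidableEq ι]

/-- Gram matrix of a set of columns. -/
def Gr (a : ι → m → ℝ) (U : Finset ι) : Matrix m m ℝ := ∑ p ∈ U, Matrix.vecMulVec (a p) (a p)

lemma Gr_mulVec (a : ι → m → ℝ) (U : Finset ι) (v : m → ℝ) :
    Gr a U *ᵥ v = ∑ p ∈ U, (a p ⬝ᵥ v) • a p := by
  unfold Gr
  rw [Matrix.sum_mulVec]
  apply Finset.sum_congr rfl
  intro p _
  rw [Matrix.vecMulVec_mulVec]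
  ext j
  simp [mul_comm]

lemma qf_Gr (a : ι → m → ℝ) (U : Finset ι) (v : m → ℝ) :
    qf (Gr a U) v = ∑ p ∈ U, (a p ⬝ᵥ v) ^ 2 := by
  unfold qf
  rw [Gr_mulVec, dotProduct_sum]
  apply Finset.sum_congr rfl
  intro p _
  rw [dotProduct_smul, smul_eq_mul, dotProduct_comm v, pow_two]

lemma Gr_symm (a : ι → m → ℝ) (U : Finset ι) : (Gr a U)ᵀ = Gr a U := by
  unfold Gr
  rw [Matrix.transpose_sum]
  apply Finset.sum_congr rfl
  intro p _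
  rw [Matrix.transpose_vecMulVec]

lemma qf_Gr_nonneg (a : ι → m → ℝ) (U : Finset ι) (v : m → ℝ) : 0 ≤ qf (Gr a U) v := by
  rw [qf_Gr]
  exact Finset.sum_nonneg fun _ _ => sq_nonneg _

lemma qf_Gr_mono (a : ι → m → ℝ) {U U' : Finset ι} (h : U ⊆ U') (v : m → ℝ) :
    qf (Gr a U) v ≤ qf (Gr a U') v := by
  rw [qf_Gr, qf_Gr]
  exact Finset.sum_le_sum_of_subset_of_nonneg h fun _ _ _ => sq_nonneg _

/-- Moving a symmetric matrix. -/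
lemma dot_mulVec {A : Matrix m m ℝ} (hA : Aᵀ = A) (x y : m → ℝ) : x ⬝ᵥ (A *ᵥ y) = (A *ᵥ x) ⬝ᵥ y := by
  rw [Matrix.dotProduct_mulVec, ← Matrix.mulVec_transpose, hA]

/-- Spectral projections of a symmetric matrix for a monotone family of thresholds. -/
theorem exists_specproj {G : Matrix m m ℝ} (hG : G.IsSymm) (thr : ℕ → ℝ) (hthr : Monotone thr) :
    ∃ Q : ℕ → Matrix m m ℝ, (∀ s, (Q s)ᵀ = Q s) ∧ (∀ s s', s ≤ s' → Q s * Q s' = Q s') ∧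
      (∀ s s', s ≤ s' → Q s' * Q s = Q s') ∧ (∀ s, G * Q s = Q s * G) ∧
      (∀ s v, thr s * (Q s *ᵥ v ⬝ᵥ Q s *ᵥ v) ≤ qf G (Q s *ᵥ v)) ∧
      (∀ s v, qf G ((1 - Q s) *ᵥ v) ≤ thr s * ((1 - Q s) *ᵥ v ⬝ᵥ (1 - Q s) *ᵥ v)) := by
  classical
  obtain ⟨U, d, hU1, hU2, hGd⟩ := exists_diag hG
  let χ : ℕ → m → ℝ := fun s i => if thr s ≤ d i then 1 else 0
  have hmul : ∀ e f : m → ℝ, (U * diagonal e * Uᵀ) * (U * diagonal f * Uᵀ)
      = U * diagonal (fun i => e i * f i) * Uᵀ := by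
    intro e f
    calc (U * diagonal e * Uᵀ) * (U * diagonal f * Uᵀ)
        = U * diagonal e * (Uᵀ * U) * diagonal f * Uᵀ := by simp only [Matrix.mul_assoc]
      _ = U * (diagonal e * diagonal f) * Uᵀ := by
          rw [hU1, Matrix.mul_one]
          simp only [Matrix.mul_assoc]
      _ = _ := by rw [diagonal_mul_diagonal]
  have htr : ∀ e : m → ℝ, (U * diagonal e * Uᵀ)ᵀ = U * diagonal e * Uᵀ := by
    intro e
    rw [Matrix.transpose_mul, Matrix.transpose_mul, Matrix.transpose_transpose,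
      Matrix.diagonal_transpose, Matrix.mul_assoc]
  have hχ : ∀ s s', s ≤ s' → ∀ i, χ s i * χ s' i = χ s' i := by
    intro s s' hs i
    simp only [χ]
    split_ifs with h1 h2 h2
    · simp
    · simp
    · exact absurd ((hthr hs).trans h2) h1
    · simp
  have hqf : ∀ e f : m → ℝ, ∀ v : m → ℝ, qf (U * diagonal e * Uᵀ) ((U * diagonal f * Uᵀ) *ᵥ v)
      = ∑ i, e i * f i ^ 2 * (Uᵀ *ᵥ v) i ^ 2 := by
    intro e f v
    rw [qf_congr]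
    have h1 : Uᵀ *ᵥ ((U * diagonal f * Uᵀ) *ᵥ v) = diagonal f *ᵥ (Uᵀ *ᵥ v) := by
      rw [Matrix.mulVec_mulVec, Matrix.mulVec_mulVec]
      congr 1
      calc Uᵀ * (U * diagonal f * Uᵀ) = (Uᵀ * U) * diagonal f * Uᵀ := by
            simp only [Matrix.mul_assoc]
        _ = diagonal f * Uᵀ := by rw [hU1, Matrix.one_mul]
    rw [h1]
    unfold qf
    rw [dotProduct]
    apply Finset.sum_congr rfl
    intro i _
    simp only [Matrix.mulVec_diagonal]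
    ring
  have hdot : ∀ f : m → ℝ, ∀ v : m → ℝ, (U * diagonal f * Uᵀ) *ᵥ v ⬝ᵥ (U * diagonal f * Uᵀ) *ᵥ v
      = ∑ i, f i ^ 2 * (Uᵀ *ᵥ v) i ^ 2 := by
    intro f v
    have h1 := hqf (fun _ => 1) f v
    rw [Matrix.diagonal_one, Matrix.mul_one, hU2, qf_one] at h1
    rw [h1]
    simp
  have hone : ∀ s, (1 : Matrix m m ℝ) - U * diagonal (χ s) * Uᵀ
      = U * diagonal (fun i => 1 - χ s i) * Uᵀ := by
    intro s
    have h1 : diagonal (fun i => 1 - χ s i) = (1 : Matrix m m ℝ) - diagonal (χ s) := by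
      rw [← Matrix.diagonal_one, ← Matrix.diagonal_sub]
    rw [h1, Matrix.mul_sub, Matrix.sub_mul, Matrix.mul_one, hU2]
  refine ⟨fun s => U * diagonal (χ s) * Uᵀ, fun s => htr _, ?_, ?_, ?_, ?_, ?_⟩
  · intro s s' hs
    simp only
    rw [hmul]
    have : (fun i => χ s i * χ s' i) = χ s' := funext (hχ s s' hs)
    rw [this]
  · intro s s' hs
    simp only
    rw [hmul]
    have : (fun i => χ s' i * χ s i) = χ s' := by
      funext i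
      rw [mul_comm]
      exact hχ s s' hs i
    rw [this]
  · intro s
    simp only
    have : (fun i => d i * χ s i) = (fun i => χ s i * d i) := by
      funext i
      ring
    rw [hGd, hmul, hmul, this]
  · intro s v
    simp only
    rw [hdot]
    conv_rhs => rw [hGd]
    rw [hqf, Finset.mul_sum]
    apply Finset.sum_le_sum
    intro i _
    rw [← mul_assoc]
    apply mul_le_mul_of_nonneg_right _ (sq_nonneg _)
    simp only [χ]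
    split_ifs with h
    · simpa using h
    · simp
  · intro s v
    simp only
    rw [hone, hdot]
    conv_lhs => rw [hGd]
    rw [hqf, Finset.mul_sum]
    apply Finset.sum_le_sum
    intro i _
    rw [← mul_assoc]
    apply mul_le_mul_of_nonneg_right _ (sq_nonneg _)
    simp only [χ]
    split_ifs with h
    · simp
    · simp only [sub_zero, one_pow, mul_one]
      push Not at h
      exact h.le

/-- Cauchy-Schwarz for a form dominated by a positive form. -/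
lemma bilin_le {E M : Matrix m m ℝ} (hE : Eᵀ = E) (hM : Mᵀ = M) (hM0 : ∀ v, 0 ≤ qf M v) {η : ℝ}
    (hη : 0 ≤ η) (h : ∀ v, |qf E v| ≤ η * qf M v) (x y : m → ℝ) :
    (x ⬝ᵥ (E *ᵥ y)) ^ 2 ≤ η ^ 2 * qf M x * qf M y := by
  -- the quadratic `t ↦ η qf M (x + t y) ∓ qf E` is nonnegative
  have hexp : ∀ (A : Matrix m m ℝ), Aᵀ = A → ∀ t : ℝ, qf A (x + t • y)
      = qf A x + 2 * t * (x ⬝ᵥ (A *ᵥ y)) + t ^ 2 * qf A y := by
    intro A hA t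
    unfold qf
    rw [Matrix.mulVec_add, Matrix.mulVec_smul, dotProduct_add, add_dotProduct, add_dotProduct,
      dotProduct_smul, smul_dotProduct, dotProduct_smul, smul_dotProduct]
    have h1 : y ⬝ᵥ (A *ᵥ x) = x ⬝ᵥ (A *ᵥ y) := by
      rw [dot_mulVec hA, dotProduct_comm]
    rw [h1]
    simp only [smul_eq_mul]
    ring
  have hexp' : ∀ (A : Matrix m m ℝ), Aᵀ = A → ∀ t : ℝ, qf A (x - t • y)
      = qf A x - 2 * t * (x ⬝ᵥ (A *ᵥ y)) + t ^ 2 * qf A y := by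
    intro A hA t
    have := hexp A hA (-t)
    rw [neg_smul, ← sub_eq_add_neg] at this
    rw [this]
    ring
  have key : ∀ t : ℝ, 2 * t * (x ⬝ᵥ (E *ᵥ y)) ≤ η * (qf M x + t ^ 2 * qf M y) := by
    intro t
    have h1 := (abs_le.mp (h (x + t • y))).2
    have h2 := (abs_le.mp (h (x - t • y))).1
    rw [hexp E hE, hexp M hM] at h1
    rw [hexp' E hE, hexp' M hM] at h2
    linarith
  have hx := hM0 x
  have hy := hM0 y
  set b := x ⬝ᵥ (E *ᵥ y) with hb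
  rcases eq_or_lt_of_le hy with hy0 | hy0
  · -- `qf M y = 0`
    rw [← hy0] at key
    rw [← hy0, mul_zero]
    have hb0 : b = 0 := by
      by_contra hne
      have h3 := key ((η * qf M x + 1) / (2 * b))
      have h4 : 2 * ((η * qf M x + 1) / (2 * b)) * b = η * qf M x + 1 := by
        field_simp
      rw [h4] at h3
      linarith
    rw [hb0]
    norm_num
  · rcases eq_or_lt_of_le hη with hη0 | hη0
    · rw [← hη0] at key ⊢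
      have h3 := key b
      have : b ^ 2 ≤ 0 := by nlinarith
      linarith
    · have h3 := key (b / (η * qf M y))
      have h4 : 2 * (b / (η * qf M y)) * b = 2 * b ^ 2 / (η * qf M y) := by ring
      have h5 : η * (qf M x + (b / (η * qf M y)) ^ 2 * qf M y) = η * qf M x + b ^ 2 / (η * qf M y) := by
        field_simp
      rw [h4, h5] at h3
      have h6 : b ^ 2 / (η * qf M y) ≤ η * qf M x := by
        have : 2 * b ^ 2 / (η * qf M y) = b ^ 2 / (η * qf M y) + b ^ 2 / (η * qf M y) := by ring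
        linarith
      rw [div_le_iff₀ (by positivity)] at h6
      calc b ^ 2 ≤ η * qf M x * (η * qf M y) := h6
        _ = _ := by ring

/-- The data of one batch. -/
structure Cut (a : ι → m → ℝ) (U V : Finset ι) (Q : Matrix m m ℝ) (π P W η : ℝ) : Prop where
  hQs : Qᵀ = Q
  hQQ : Q * Q = Q
  hGQ : Gr a univ * Q = Q * Gr a univ
  hπ : 0 < π
  hP : 1 ≤ P
  hW : 0 < W
  hη0 : 0 ≤ η
  hη : η ≤ 1 / 4
  /-- `Q` lies in the dense part. -/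
  hlow : ∀ v, W * (Q *ᵥ v ⬝ᵥ Q *ᵥ v) ≤ π * qf (Gr a univ) (Q *ᵥ v)
  /-- `1 - Q` lies in the sparse part. -/
  hup : ∀ v, π * qf (Gr a univ) ((1 - Q) *ᵥ v) ≤ W * ((1 - Q) *ᵥ v ⬝ᵥ (1 - Q) *ᵥ v)
  hS1 : ∀ v, |qf (Gr a U) v - π * qf (Gr a univ) v| ≤ η * (π * qf (Gr a univ) v + W * (v ⬝ᵥ v))
  hV : ∀ v, qf (Gr a V) v ≤ (1 + η) * (P * π) * qf (Gr a univ) v + η * W * (v ⬝ᵥ v)

/-- The compressed Gram matrix, made invertible. -/
def BB (a : ι → m → ℝ) (U : Finset ι) (Q : Matrix m m ℝ) : Matrix m m ℝ :=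
  Q * Gr a U * Q + (1 - Q)

/-- The inverse of `Q G_U Q` on the range of `Q`. -/
def Bi (a : ι → m → ℝ) (U : Finset ι) (Q : Matrix m m ℝ) : Matrix m m ℝ := (BB a U Q)⁻¹ * Q

/-- The side matrix `(1 - Q) G_U B⁻¹`. -/
def SS (a : ι → m → ℝ) (U : Finset ι) (Q : Matrix m m ℝ) : Matrix m m ℝ :=
  (1 - Q) * Gr a U * Bi a U Q

namespace Cut

variable {a : ι → m → ℝ} {U V : Finset ι} {Q : Matrix m m ℝ} {π P W η : ℝ}

lemma dense (h : Cut a U V Q π P W η) (v : m → ℝ) :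
    π * qf (Gr a univ) (Q *ᵥ v) ≤ 2 * qf (Gr a U) (Q *ᵥ v) := by
  have h1 := (abs_le.mp (h.hS1 (Q *ᵥ v))).1
  have h2 := h.hlow v
  have h3 := h.hη
  have h4 : 0 ≤ π * qf (Gr a univ) (Q *ᵥ v) := mul_nonneg h.hπ.le (qf_Gr_nonneg _ _ _)
  have h5 := h.hη0
  nlinarith

lemma dense' (h : Cut a U V Q π P W η) (v : m → ℝ) :
    W * (Q *ᵥ v ⬝ᵥ Q *ᵥ v) ≤ 2 * qf (Gr a U) (Q *ᵥ v) := (h.hlow v).trans (h.dense v)

lemma Q_mul_one_sub (h : Cut a U V Q π P W η) : Q * (1 - Q) = 0 := by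
  rw [Matrix.mul_sub, Matrix.mul_one, h.hQQ, sub_self]

lemma one_sub_mul_Q (h : Cut a U V Q π P W η) : (1 - Q) * Q = 0 := by
  rw [Matrix.sub_mul, Matrix.one_mul, h.hQQ, sub_self]

lemma one_sub_sq (h : Cut a U V Q π P W η) : (1 - Q) * (1 - Q) = 1 - Q := by
  rw [Matrix.sub_mul, Matrix.one_mul, h.Q_mul_one_sub, sub_zero]

lemma one_sub_symm (h : Cut a U V Q π P W η) : (1 - Q)ᵀ = 1 - Q := by
  rw [Matrix.transpose_sub, Matrix.transpose_one, h.hQs]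

/-- Pythagoras. -/
lemma pyth (h : Cut a U V Q π P W η) (v : m → ℝ) :
    v ⬝ᵥ v = Q *ᵥ v ⬝ᵥ Q *ᵥ v + (1 - Q) *ᵥ v ⬝ᵥ (1 - Q) *ᵥ v := by
  have h1 : Q *ᵥ v ⬝ᵥ Q *ᵥ v = v ⬝ᵥ (Q *ᵥ v) := by
    rw [← dot_mulVec h.hQs, Matrix.mulVec_mulVec, h.hQQ]
  have h2 : (1 - Q) *ᵥ v ⬝ᵥ (1 - Q) *ᵥ v = v ⬝ᵥ ((1 - Q) *ᵥ v) := by
    rw [← dot_mulVec h.one_sub_symm, Matrix.mulVec_mulVec, h.one_sub_sq]
  rw [h1, h2, ← dotProduct_add, ← Matrix.add_mulVec, add_sub_cancel, Matrix.one_mulVec]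

lemma normQ_le (h : Cut a U V Q π P W η) (v : m → ℝ) : Q *ᵥ v ⬝ᵥ Q *ᵥ v ≤ v ⬝ᵥ v := by
  rw [h.pyth v]
  have := dot_self_nonneg ((1 - Q) *ᵥ v)
  linarith

lemma normQ'_le (h : Cut a U V Q π P W η) (v : m → ℝ) :
    (1 - Q) *ᵥ v ⬝ᵥ (1 - Q) *ᵥ v ≤ v ⬝ᵥ v := by
  rw [h.pyth v]
  have := dot_self_nonneg (Q *ᵥ v)
  linarith

lemma BB_symm (h : Cut a U V Q π P W η) : (BB a U Q)ᵀ = BB a U Q := by
  unfold BB
  rw [Matrix.transpose_add, Matrix.transpose_mul, Matrix.transpose_mul, Gr_symm, h.hQs,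
    h.one_sub_symm, Matrix.mul_assoc]

lemma qf_BB (h : Cut a U V Q π P W η) (v : m → ℝ) :
    qf (BB a U Q) v = qf (Gr a U) (Q *ᵥ v) + (1 - Q) *ᵥ v ⬝ᵥ (1 - Q) *ᵥ v := by
  unfold BB
  rw [qf_add]
  congr 1
  · have := qf_congr Q (Gr a U) v
    rw [h.hQs] at this
    exact this
  · unfold qf
    rw [← dot_mulVec h.one_sub_symm, Matrix.mulVec_mulVec, h.one_sub_sq]

lemma BB_det (h : Cut a U V Q π P W η) : IsUnit (BB a U Q).det := by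
  rw [isUnit_iff_ne_zero]
  intro hdet
  obtain ⟨v, hv, hv0⟩ := Matrix.exists_mulVec_eq_zero_iff.mpr hdet
  apply hv
  have h1 : qf (BB a U Q) v = 0 := by
    unfold qf
    rw [hv0, dotProduct_zero]
  rw [h.qf_BB] at h1
  have h2 := h.dense' v
  have h3 := dot_self_nonneg (Q *ᵥ v)
  have h4 := dot_self_nonneg ((1 - Q) *ᵥ v)
  have h5 := qf_Gr_nonneg a U (Q *ᵥ v)
  have h6 : (1 - Q) *ᵥ v ⬝ᵥ (1 - Q) *ᵥ v = 0 := by linarith
  have h7 : qf (Gr a U) (Q *ᵥ v) = 0 := by linarith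
  have h8 : Q *ᵥ v ⬝ᵥ Q *ᵥ v = 0 := by
    rw [h7, mul_zero] at h2
    nlinarith [h.hW]
  have h9 : v ⬝ᵥ v = 0 := by rw [h.pyth v, h8, h6, add_zero]
  exact dotProduct_self_eq_zero.mp h9

lemma BB_inv_mul (h : Cut a U V Q π P W η) : (BB a U Q)⁻¹ * BB a U Q = 1 :=
  Matrix.nonsing_inv_mul _ h.BB_det

lemma BB_mul_inv (h : Cut a U V Q π P W η) : BB a U Q * (BB a U Q)⁻¹ = 1 :=
  Matrix.mul_nonsing_inv _ h.BB_det

lemma BB_comm (h : Cut a U V Q π P W η) : BB a U Q * Q = Q * BB a U Q := by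
  unfold BB
  rw [Matrix.add_mul, Matrix.mul_add, h.one_sub_mul_Q, h.Q_mul_one_sub, add_zero, add_zero,
    Matrix.mul_assoc, h.hQQ, ← Matrix.mul_assoc, ← Matrix.mul_assoc, h.hQQ]

lemma inv_comm (h : Cut a U V Q π P W η) : (BB a U Q)⁻¹ * Q = Q * (BB a U Q)⁻¹ := by
  calc (BB a U Q)⁻¹ * Q = (BB a U Q)⁻¹ * Q * (BB a U Q * (BB a U Q)⁻¹) := by
        rw [h.BB_mul_inv, Matrix.mul_one]
    _ = (BB a U Q)⁻¹ * (Q * BB a U Q) * (BB a U Q)⁻¹ := by simp only [Matrix.mul_assoc]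
    _ = (BB a U Q)⁻¹ * BB a U Q * Q * (BB a U Q)⁻¹ := by
        rw [← h.BB_comm]
        simp only [Matrix.mul_assoc]
    _ = Q * (BB a U Q)⁻¹ := by rw [h.BB_inv_mul, Matrix.one_mul]

lemma Q_Bi (h : Cut a U V Q π P W η) : Q * Bi a U Q = Bi a U Q := by
  unfold Bi
  rw [h.inv_comm, ← Matrix.mul_assoc, h.hQQ]

lemma Bi_Q (h : Cut a U V Q π P W η) : Bi a U Q * Q = Bi a U Q := by
  unfold Bi
  rw [Matrix.mul_assoc, h.hQQ]

lemma Bi_symm (h : Cut a U V Q π P W η) : (Bi a U Q)ᵀ = Bi a U Q := by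
  unfold Bi
  rw [Matrix.transpose_mul, Matrix.transpose_nonsing_inv, h.BB_symm, h.hQs, h.inv_comm]

/-- `Q G_U Q · Bi = Q`. -/
lemma G_Bi (h : Cut a U V Q π P W η) : Q * Gr a U * Bi a U Q = Q := by
  have h1 : BB a U Q * Bi a U Q = Q := by
    unfold Bi
    rw [← Matrix.mul_assoc, h.BB_mul_inv, Matrix.one_mul]
  have h2 : BB a U Q * Bi a U Q = Q * Gr a U * Bi a U Q := by
    unfold BB
    rw [Matrix.add_mul]
    have e1 : (1 - Q) * Bi a U Q = 0 := by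
      rw [← h.Q_Bi, ← Matrix.mul_assoc, h.one_sub_mul_Q, Matrix.zero_mul]
    rw [e1, add_zero, Matrix.mul_assoc, h.Q_Bi]
  rw [← h2, h1]

/-- `Bi G_U Bi = Bi`. -/
lemma Bi_G_Bi (h : Cut a U V Q π P W η) : Bi a U Q * Gr a U * Bi a U Q = Bi a U Q := by
  calc Bi a U Q * Gr a U * Bi a U Q = (Bi a U Q * Q) * Gr a U * Bi a U Q := by rw [h.Bi_Q]
    _ = Bi a U Q * (Q * Gr a U * Bi a U Q) := by simp only [Matrix.mul_assoc]
    _ = Bi a U Q := by rw [h.G_Bi, h.Bi_Q]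

/-- The energy identity: `qf G_U (Bi x) = x ⬝ Bi x`. -/
lemma qf_G_Bi (h : Cut a U V Q π P W η) (x : m → ℝ) :
    qf (Gr a U) (Bi a U Q *ᵥ x) = x ⬝ᵥ (Bi a U Q *ᵥ x) := by
  have h1 := qf_congr (Bi a U Q) (Gr a U) x
  rw [h.Bi_symm] at h1
  rw [← h1, h.Bi_G_Bi]
  rfl

lemma dot_Bi_nonneg (h : Cut a U V Q π P W η) (x : m → ℝ) : 0 ≤ x ⬝ᵥ (Bi a U Q *ᵥ x) := by
  rw [← h.qf_G_Bi]
  exact qf_Gr_nonneg _ _ _

lemma Q_mulVec_Bi (h : Cut a U V Q π P W η) (x : m → ℝ) :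
    Q *ᵥ (Bi a U Q *ᵥ x) = Bi a U Q *ᵥ x := by
  rw [Matrix.mulVec_mulVec, h.Q_Bi]

/-- Norm of `Bi`: `|Bi x| ≤ (2 / W) |x|`. -/
lemma norm_Bi (h : Cut a U V Q π P W η) (x : m → ℝ) :
    Bi a U Q *ᵥ x ⬝ᵥ Bi a U Q *ᵥ x ≤ (2 / W) ^ 2 * (x ⬝ᵥ x) := by
  set y := Bi a U Q *ᵥ x with hy
  have h1 := h.dense' (Bi a U Q *ᵥ x)
  rw [h.Q_mulVec_Bi, h.qf_G_Bi, ← hy] at h1
  -- `W |y|² ≤ 2 x ⬝ y`, Cauchy-Schwarz
  have h2 : (x ⬝ᵥ y) ^ 2 ≤ (x ⬝ᵥ x) * (y ⬝ᵥ y) := by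
    have := bilin_le (E := (1 : Matrix m m ℝ)) (M := 1) (η := 1) Matrix.transpose_one
      Matrix.transpose_one (fun v => by rw [qf_one]; exact dot_self_nonneg v) (by norm_num)
      (fun v => by rw [qf_one, abs_of_nonneg (dot_self_nonneg v), one_mul]) x y
    rw [Matrix.one_mulVec, qf_one, qf_one] at this
    linarith
  have h3 := dot_self_nonneg y
  have h4 := dot_self_nonneg x
  have hW := h.hW
  rcases eq_or_lt_of_le h3 with h5 | h5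
  · rw [← h5]; positivity
  · have h6 : (W * (y ⬝ᵥ y)) ^ 2 ≤ (2 * (x ⬝ᵥ y)) ^ 2 := by
      apply pow_le_pow_left₀ (by positivity) h1
    have h7 : W ^ 2 * (y ⬝ᵥ y) ≤ 4 * (x ⬝ᵥ x) := by
      have : (W ^ 2 * (y ⬝ᵥ y)) * (y ⬝ᵥ y) ≤ (4 * (x ⬝ᵥ x)) * (y ⬝ᵥ y) := by nlinarith
      exact le_of_mul_le_mul_right this h5
    rw [div_pow, div_mul_eq_mul_div, le_div_iff₀ (by positivity)]
    linarith

/-- `x ⬝ Bi x ≤ (2 / W) |x|²`. -/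
lemma dot_Bi_le (h : Cut a U V Q π P W η) (x : m → ℝ) :
    x ⬝ᵥ (Bi a U Q *ᵥ x) ≤ (2 / W) * (x ⬝ᵥ x) := by
  set y := Bi a U Q *ᵥ x with hy
  have h1 := h.dense' (Bi a U Q *ᵥ x)
  rw [h.Q_mulVec_Bi, h.qf_G_Bi, ← hy] at h1
  have hW := h.hW
  -- `2 x ⬝ y ≤ (2/W) |x|² + (W/2) |y|²`
  have h2 : 0 ≤ ((2 / W) • x - y) ⬝ᵥ ((2 / W) • x - y) := dot_self_nonneg _
  have h3 : ((2 / W) • x - y) ⬝ᵥ ((2 / W) • x - y)
      = (2 / W) ^ 2 * (x ⬝ᵥ x) - 2 * (2 / W) * (x ⬝ᵥ y) + y ⬝ᵥ y := by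
    rw [sub_dotProduct, dotProduct_sub, dotProduct_sub, smul_dotProduct, smul_dotProduct,
      dotProduct_smul, dotProduct_smul, dotProduct_comm y x]
    simp only [smul_eq_mul]
    ring
  rw [h3] at h2
  have h4 : y ⬝ᵥ y ≤ (2 / W) * (x ⬝ᵥ y) := by
    rw [div_mul_eq_mul_div, le_div_iff₀ hW]
    linarith
  have h5 : (2 / W) * (x ⬝ᵥ y) ≤ (2 / W) ^ 2 * (x ⬝ᵥ x) := by linarith
  have h6 : (2 / W) * (x ⬝ᵥ y) ≤ (2 / W) * ((2 / W) * (x ⬝ᵥ x)) := by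
    rw [← mul_assoc, ← pow_two]
    exact h5
  exact le_of_mul_le_mul_left h6 (by positivity)

/-- (C1) Column norm of the drift rows: `∑_{i ∈ U} (a_i ⬝ Bi x)² ≤ (2 / W) |x|²`. -/
theorem drift_col (h : Cut a U V Q π P W η) (x : m → ℝ) :
    ∑ i ∈ U, (a i ⬝ᵥ (Bi a U Q *ᵥ x)) ^ 2 ≤ (2 / W) * (x ⬝ᵥ x) := by
  rw [← qf_Gr, h.qf_G_Bi]
  exact h.dot_Bi_le x

/-- (C2) `|(1 - Q) A_V|² ≤ 2 W P`. -/
theorem sparse_V (h : Cut a U V Q π P W η) (ψ : m → ℝ) :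
    ∑ p ∈ V, (a p ⬝ᵥ ((1 - Q) *ᵥ ψ)) ^ 2 ≤ 2 * W * P * (ψ ⬝ᵥ ψ) := by
  rw [← qf_Gr]
  refine (h.hV _).trans ?_
  have h1 := h.hup ψ
  have h2 := h.normQ'_le ψ
  have h3 := dot_self_nonneg ((1 - Q) *ᵥ ψ)
  have h4 := h.hη
  have h5 := h.hη0
  have h6 := h.hP
  have h7 := h.hW
  set N := (1 - Q) *ᵥ ψ ⬝ᵥ (1 - Q) *ᵥ ψ with hN
  have e1 : (1 + η) * (P * π) * qf (Gr a univ) ((1 - Q) *ᵥ ψ) ≤ (1 + η) * P * (W * N) := by
    have : (1 + η) * (P * π) * qf (Gr a univ) ((1 - Q) *ᵥ ψ)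
        = (1 + η) * P * (π * qf (Gr a univ) ((1 - Q) *ᵥ ψ)) := by ring
    rw [this]
    gcongr
  have e2 : η * W * N ≤ η * P * (W * N) := by
    have : 0 ≤ η * (W * N) := by positivity
    nlinarith
  have e3 : (1 + η) * P * (W * N) + η * P * (W * N) ≤ 2 * W * P * N := by
    have : 0 ≤ P * (W * N) := by positivity
    nlinarith
  have e4 : 2 * W * P * N ≤ 2 * W * P * (ψ ⬝ᵥ ψ) := by gcongr
  linarith

/-- (C2') `Q G_V Q ≤ 4 P · Q G_U Q`. -/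
theorem dense_V (h : Cut a U V Q π P W η) (v : m → ℝ) :
    qf (Gr a V) (Q *ᵥ v) ≤ 4 * P * qf (Gr a U) (Q *ᵥ v) := by
  refine (h.hV _).trans ?_
  have h1 := h.hlow v
  have h2 := h.dense v
  have h4 := h.hη
  have h5 := h.hη0
  have h6 := h.hP
  have h7 := h.hW
  have h8 := qf_Gr_nonneg a univ (Q *ᵥ v)
  have h9 := h.hπ
  set N := Q *ᵥ v ⬝ᵥ Q *ᵥ v with hN
  set X := π * qf (Gr a univ) (Q *ᵥ v) with hX
  have hX0 : 0 ≤ X := by positivity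
  have e1 : (1 + η) * (P * π) * qf (Gr a univ) (Q *ᵥ v) = (1 + η) * P * X := by
    rw [hX]; ring
  have e2 : η * W * N ≤ η * P * X := by
    have : η * (W * N) ≤ η * X := mul_le_mul_of_nonneg_left h1 h5
    have : η * X ≤ η * P * X := by nlinarith [mul_nonneg h5 hX0]
    nlinarith
  have e3 : (1 + η) * P * X + η * P * X ≤ 2 * P * X := by
    have : 0 ≤ P * X := by positivity
    nlinarith
  have e4 : 2 * P * X ≤ 2 * P * (2 * qf (Gr a U) (Q *ᵥ v)) := by gcongr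
  rw [e1]
  linarith

/-- The cross term of the two parts. -/
lemma cross (h : Cut a U V Q π P W η) (x y : m → ℝ) :
    ((1 - Q) *ᵥ x ⬝ᵥ (Gr a U *ᵥ (Q *ᵥ y))) ^ 2 ≤
      8 * η ^ 2 * W * (x ⬝ᵥ x) * qf (Gr a U) (Q *ᵥ y) := by
  set E := Gr a U - π • Gr a univ with hE
  set M := π • Gr a univ + W • (1 : Matrix m m ℝ) with hM
  have hEs : Eᵀ = E := by
    rw [hE, Matrix.transpose_sub, Matrix.transpose_smul, Gr_symm, Gr_symm]
  have hMs : Mᵀ = M := by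
    rw [hM, Matrix.transpose_add, Matrix.transpose_smul, Matrix.transpose_smul, Gr_symm,
      Matrix.transpose_one]
  have hMq : ∀ v, qf M v = π * qf (Gr a univ) v + W * (v ⬝ᵥ v) := by
    intro v
    rw [hM, qf_add, qf_smul, qf_smul, qf_one]
  have hEq : ∀ v, qf E v = qf (Gr a U) v - π * qf (Gr a univ) v := by
    intro v
    rw [hE, sub_eq_add_neg, qf_add, ← neg_smul, qf_smul]
    ring
  have hM0 : ∀ v, 0 ≤ qf M v := by
    intro v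
    rw [hMq]
    have h1 := mul_nonneg h.hπ.le (qf_Gr_nonneg a univ v)
    have h2 := mul_nonneg h.hW.le (dot_self_nonneg v)
    linarith
  have h1 := bilin_le hEs hMs hM0 h.hη0 (fun v => by rw [hEq, hMq]; exact h.hS1 v)
    ((1 - Q) *ᵥ x) (Q *ᵥ y)
  have h2 : (1 - Q) *ᵥ x ⬝ᵥ (E *ᵥ (Q *ᵥ y)) = (1 - Q) *ᵥ x ⬝ᵥ (Gr a U *ᵥ (Q *ᵥ y)) := by
    have e0 : E *ᵥ (Q *ᵥ y) = Gr a U *ᵥ (Q *ᵥ y) - π • (Gr a univ *ᵥ (Q *ᵥ y)) := by
      rw [hE, Matrix.sub_mulVec, Matrix.smul_mulVec]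
    rw [e0, dotProduct_sub, dotProduct_smul]
    have : (1 - Q) *ᵥ x ⬝ᵥ (Gr a univ *ᵥ (Q *ᵥ y)) = 0 := by
      rw [Matrix.mulVec_mulVec, h.hGQ, ← dot_mulVec h.one_sub_symm, Matrix.mulVec_mulVec,
        ← Matrix.mul_assoc, h.one_sub_mul_Q, Matrix.zero_mul, Matrix.zero_mulVec, dotProduct_zero]
    rw [this]
    simp
  rw [h2] at h1
  refine h1.trans ?_
  have h3 : qf M ((1 - Q) *ᵥ x) ≤ 2 * W * (x ⬝ᵥ x) := by
    rw [hMq]
    have e1 := h.hup x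
    have e2 := mul_le_mul_of_nonneg_left (h.normQ'_le x) h.hW.le
    linarith
  have h4 : qf M (Q *ᵥ y) ≤ 4 * qf (Gr a U) (Q *ᵥ y) := by
    rw [hMq]
    have e1 := h.hlow y
    have e2 := h.dense y
    linarith
  have h5 := hM0 (Q *ᵥ y)
  have h6 := dot_self_nonneg x
  have h7 := h.hW
  calc η ^ 2 * qf M ((1 - Q) *ᵥ x) * qf M (Q *ᵥ y)
      ≤ η ^ 2 * (2 * W * (x ⬝ᵥ x)) * (4 * qf (Gr a U) (Q *ᵥ y)) := by
        gcongr
    _ = _ := by ring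

lemma SS_mulVec (_h : Cut a U V Q π P W η) (u : m → ℝ) :
    SS a U Q *ᵥ u = (1 - Q) *ᵥ (Gr a U *ᵥ (Bi a U Q *ᵥ u)) := by
  unfold SS
  rw [Matrix.mulVec_mulVec, Matrix.mulVec_mulVec, Matrix.mul_assoc]

/-- `|S u|² ≤ 8 η² W · u ⬝ Bi u`. -/
lemma SS_le (h : Cut a U V Q π P W η) (u : m → ℝ) :
    SS a U Q *ᵥ u ⬝ᵥ SS a U Q *ᵥ u ≤ 8 * η ^ 2 * W * (u ⬝ᵥ (Bi a U Q *ᵥ u)) := by
  set x := SS a U Q *ᵥ u with hx
  have h1 := h.cross x (Bi a U Q *ᵥ u)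
  rw [h.Q_mulVec_Bi, h.qf_G_Bi] at h1
  have h2 : (1 - Q) *ᵥ x ⬝ᵥ (Gr a U *ᵥ (Bi a U Q *ᵥ u)) = x ⬝ᵥ x := by
    rw [← dot_mulVec h.one_sub_symm, ← h.SS_mulVec, ← hx]
  rw [h2] at h1
  have h3 := dot_self_nonneg x
  rcases eq_or_lt_of_le h3 with h5 | h5
  · rw [← h5]
    have := h.dot_Bi_nonneg u
    have := h.hW
    positivity
  · have : (x ⬝ᵥ x) * (x ⬝ᵥ x) ≤ (8 * η ^ 2 * W * (u ⬝ᵥ (Bi a U Q *ᵥ u))) * (x ⬝ᵥ x) := by
      nlinarith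
    exact le_of_mul_le_mul_right this h5

/-- (C3) `|S u| ≤ 4 η |u|`. -/
theorem SS_norm (h : Cut a U V Q π P W η) (u : m → ℝ) :
    SS a U Q *ᵥ u ⬝ᵥ SS a U Q *ᵥ u ≤ (4 * η) ^ 2 * (u ⬝ᵥ u) := by
  refine (h.SS_le u).trans ?_
  have h1 := h.dot_Bi_le u
  have hW := h.hW
  calc 8 * η ^ 2 * W * (u ⬝ᵥ (Bi a U Q *ᵥ u)) ≤ 8 * η ^ 2 * W * ((2 / W) * (u ⬝ᵥ u)) := by
        gcongr
    _ = (4 * η) ^ 2 * (u ⬝ᵥ u) := by field_simp; ring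

/-- (C4) `|S A_V|² ≤ 32 P W η²`. -/
theorem SS_V (h : Cut a U V Q π P W η) (ψ : m → ℝ) :
    ∑ p ∈ V, (ψ ⬝ᵥ (SS a U Q *ᵥ a p)) ^ 2 ≤ 32 * P * W * η ^ 2 * (ψ ⬝ᵥ ψ) := by
  -- `ψ ⬝ S a_p = a_p ⬝ Bi z`, `z = G_U (1 - Q) ψ`
  set z := Gr a U *ᵥ ((1 - Q) *ᵥ ψ) with hz
  have h1 : ∀ p, ψ ⬝ᵥ (SS a U Q *ᵥ a p) = a p ⬝ᵥ (Bi a U Q *ᵥ z) := by
    intro p
    rw [h.SS_mulVec, dot_mulVec h.one_sub_symm, dot_mulVec (Gr_symm a U), ← hz,
      dot_mulVec h.Bi_symm, dotProduct_comm]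
  simp only [h1]
  rw [← qf_Gr]
  have h2 := h.dense_V (Bi a U Q *ᵥ z)
  rw [h.Q_mulVec_Bi] at h2
  refine h2.trans ?_
  have h3 := h.cross ψ (Bi a U Q *ᵥ z)
  rw [h.Q_mulVec_Bi, dot_mulVec (Gr_symm a U), ← hz, h.qf_G_Bi] at h3
  rw [h.qf_G_Bi]
  set X := z ⬝ᵥ (Bi a U Q *ᵥ z) with hX
  have hX0 : 0 ≤ X := h.dot_Bi_nonneg z
  have h4 : X ≤ 8 * η ^ 2 * W * (ψ ⬝ᵥ ψ) := by
    rcases eq_or_lt_of_le hX0 with h5 | h5
    · rw [← h5]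
      have := dot_self_nonneg ψ
      have := h.hW
      positivity
    · have : X * X ≤ (8 * η ^ 2 * W * (ψ ⬝ᵥ ψ)) * X := by nlinarith
      exact le_of_mul_le_mul_right this h5
  have hP := h.hP
  calc 4 * P * X ≤ 4 * P * (8 * η ^ 2 * W * (ψ ⬝ᵥ ψ)) := by gcongr
    _ = _ := by ring

/-- (C5) Operator norm of the drift rows: `∑_{p ∈ V} (∑_{i ∈ U} ψ_i a_i ⬝ Bi a_p)² ≤ 4 P |ψ|²`. -/
theorem drift_op (h : Cut a U V Q π P W η) (ψ : ι → ℝ) :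
    ∑ p ∈ V, (∑ i ∈ U, ψ i * (a i ⬝ᵥ (Bi a U Q *ᵥ a p))) ^ 2 ≤ 4 * P * ∑ i ∈ U, ψ i ^ 2 := by
  set z : m → ℝ := ∑ i ∈ U, ψ i • a i with hz
  have h1 : ∀ p, ∑ i ∈ U, ψ i * (a i ⬝ᵥ (Bi a U Q *ᵥ a p)) = a p ⬝ᵥ (Bi a U Q *ᵥ z) := by
    intro p
    rw [dot_mulVec h.Bi_symm, dotProduct_comm, hz, sum_dotProduct]
    apply Finset.sum_congr rfl
    intro i _
    rw [smul_dotProduct, smul_eq_mul]
  simp only [h1]
  rw [← qf_Gr]
  have h2 := h.dense_V (Bi a U Q *ᵥ z)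
  rw [h.Q_mulVec_Bi] at h2
  refine h2.trans ?_
  have hP := h.hP
  rw [h.qf_G_Bi]
  set X := z ⬝ᵥ (Bi a U Q *ᵥ z) with hX
  have hX0 : 0 ≤ X := h.dot_Bi_nonneg z
  have h3 : X = ∑ i ∈ U, ψ i * (a i ⬝ᵥ (Bi a U Q *ᵥ z)) := by
    rw [hX]
    conv_lhs => rw [hz, sum_dotProduct]
    apply Finset.sum_congr rfl
    intro i _
    rw [smul_dotProduct, smul_eq_mul]
  have h4 : X ^ 2 ≤ (∑ i ∈ U, ψ i ^ 2) * X := by
    have h5 := Finset.sum_mul_sq_le_sq_mul_sq U ψ (fun i => a i ⬝ᵥ (Bi a U Q *ᵥ z))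
    rw [← h3, ← qf_Gr, h.qf_G_Bi] at h5
    exact h5
  have h6 : X ≤ ∑ i ∈ U, ψ i ^ 2 := by
    rcases eq_or_lt_of_le hX0 with h5 | h5
    · rw [← h5]
      exact Finset.sum_nonneg fun _ _ => sq_nonneg _
    · have : X * X ≤ (∑ i ∈ U, ψ i ^ 2) * X := by nlinarith
      exact le_of_mul_le_mul_right this h5
  gcongr

/-- (C7) The identity for one batch. -/
theorem identity (h : Cut a U V Q π P W η) (D κ : m → ℝ) (hκ : Q *ᵥ κ = κ) :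
    D - Gr a U *ᵥ (Bi a U Q *ᵥ (Q *ᵥ D + κ)) =
      (1 - Q) *ᵥ D - κ - SS a U Q *ᵥ (Q *ᵥ D + κ) := by
  set u := Q *ᵥ D + κ with hu
  have hQu : Q *ᵥ u = u := by
    rw [hu, Matrix.mulVec_add, Matrix.mulVec_mulVec, h.hQQ, hκ]
  have h1 : Gr a U *ᵥ (Bi a U Q *ᵥ u) = u + SS a U Q *ᵥ u := by
    have h2 : Q *ᵥ (Gr a U *ᵥ (Bi a U Q *ᵥ u)) = u := by
      rw [Matrix.mulVec_mulVec, Matrix.mulVec_mulVec, h.G_Bi, hQu]
    rw [h.SS_mulVec, Matrix.sub_mulVec, Matrix.one_mulVec, h2]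
    abel
  rw [h1, Matrix.sub_mulVec, Matrix.one_mulVec, hu]
  abel

end Cut

end
end KH98
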