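import Pool.Agent.LibKh98.Khin

set_option autoImplicit false
set_option linter.unusedSectionVars false

/-!
# The halving lemma: nested random halves of a sum of positive semidefinite forms
-/

namespace KH98

open Matrix Finset

noncomputable section

variable {m : Type*} [Fintype m] [DecidableEq m]
variable {ι : Type*} [Fintype ι] [DecidableEq ι]

/-- The quadratic form of a matrix. -/
def qf (M : Matrix m m ℝ) (v : m → ℝ) : ℝ := v ⬝ᵥ (M *ᵥ v)

lemma qf_add (A B : Matrix m m ℝ) (v : m → ℝ) : qf (A + B) v = qf A v + qf B v := by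
  unfold qf; rw [Matrix.add_mulVec, dotProduct_add]

lemma qf_smul (c : ℝ) (A : Matrix m m ℝ) (v : m → ℝ) : qf (c • A) v = c * qf A v := by
  unfold qf; rw [Matrix.smul_mulVec, dotProduct_smul, smul_eq_mul]

lemma qf_one (v : m → ℝ) : qf (1 : Matrix m m ℝ) v = v ⬝ᵥ v := by
  unfold qf; rw [Matrix.one_mulVec]

lemma qf_sum {α : Type*} (s : Finset α) (A : α → Matrix m m ℝ) (v : m → ℝ) :
    qf (∑ i ∈ s, A i) v = ∑ i ∈ s, qf (A i) v := by
  classical
  induction s using Finset.induction_on with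
  | empty => simp [qf]
  | insert a s ha ih => rw [Finset.sum_insert ha, Finset.sum_insert ha, qf_add, ih]

lemma qf_congr (R A : Matrix m m ℝ) (v : m → ℝ) : qf (R * A * Rᵀ) v = qf A (Rᵀ *ᵥ v) := by
  unfold qf
  rw [← Matrix.mulVec_mulVec, ← Matrix.mulVec_mulVec, Matrix.dotProduct_mulVec v R,
    ← Matrix.mulVec_transpose]

/-- `H² ≤ h H` for a positive semidefinite `H ≤ h`. -/
lemma qf_sq_le {H : Matrix m m ℝ} (hs : H.IsSymm) (h0 : ∀ v, 0 ≤ qf H v) {h : ℝ}
    (hh : ∀ v, qf H v ≤ h * (v ⬝ᵥ v)) (v : m → ℝ) : qf (H * H) v ≤ h * qf H v := by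
  obtain ⟨U, d, hU1, hU2, hHd⟩ := exists_diag hs
  have key : ∀ (e : m → ℝ) (v : m → ℝ), qf (U * diagonal e * Uᵀ) v = ∑ a, e a * (Uᵀ *ᵥ v) a ^ 2 := by
    intro e v
    rw [qf_congr]
    unfold qf
    rw [dotProduct]
    apply Finset.sum_congr rfl
    intro a _
    rw [Matrix.mulVec_diagonal]
    ring
  have hd : ∀ a, 0 ≤ d a ∧ d a ≤ h := by
    intro a
    have e1 : Uᵀ *ᵥ (U *ᵥ (Pi.single a 1)) = Pi.single a 1 := by
      rw [Matrix.mulVec_mulVec, hU1, Matrix.one_mulVec]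
    have e2 : qf H (U *ᵥ (Pi.single a 1)) = d a := by
      rw [hHd, key, e1, Finset.sum_eq_single a]
      · simp
      · intro b _ hb
        rw [Pi.single_eq_of_ne hb]
        ring
      · intro h
        exact absurd (Finset.mem_univ a) h
    have e3 : (U *ᵥ (Pi.single a 1 : m → ℝ)) ⬝ᵥ (U *ᵥ (Pi.single a 1)) = 1 := by
      rw [Matrix.dotProduct_mulVec, Matrix.vecMul_mulVec, ← Matrix.dotProduct_mulVec,
        hU1, Matrix.one_mulVec]
      simp
    have h1 := h0 (U *ᵥ (Pi.single a 1))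
    have h2 := hh (U *ᵥ (Pi.single a 1))
    rw [e2] at h1 h2
    rw [e3, mul_one] at h2
    exact ⟨h1, h2⟩
  have e4 : H * H = U * diagonal (fun a => d a * d a) * Uᵀ := by
    have := diag_pow hU1 hU2 (d := d) 2
    rw [← hHd, pow_two] at this
    rw [this]
    simp only [pow_two]
  rw [e4, key]
  conv_rhs => rw [hHd, key, Finset.mul_sum]
  apply Finset.sum_le_sum
  intro a _
  rw [← mul_assoc]
  apply mul_le_mul_of_nonneg_right _ (sq_nonneg _)
  exact mul_le_mul_of_nonneg_right (hd a).2 (hd a).1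

/-- A change of basis which makes a positive definite form the identity. -/
lemma exists_root {M : Matrix m m ℝ} (hs : M.IsSymm) {w : ℝ} (hw : 0 < w)
    (hM : ∀ v, w * (v ⬝ᵥ v) ≤ qf M v) : ∃ R R' : Matrix m m ℝ, R * M * Rᵀ = 1 ∧
      Rᵀ * R' = 1 := by
  obtain ⟨U, d, hU1, hU2, hMd⟩ := exists_diag hs
  have hd : ∀ a, w ≤ d a := by
    intro a
    have e1 : Uᵀ *ᵥ (U *ᵥ (Pi.single a 1)) = Pi.single a 1 := by
      rw [Matrix.mulVec_mulVec, hU1, Matrix.one_mulVec]
    have e2 : qf M (U *ᵥ (Pi.single a 1)) = d a := by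
      rw [hMd, qf_congr, e1]
      unfold qf
      rw [dotProduct, Finset.sum_eq_single a]
      · rw [Matrix.mulVec_diagonal]
        simp
      · intro b _ hb
        rw [Pi.single_eq_of_ne hb]
        ring
      · intro h
        exact absurd (Finset.mem_univ a) h
    have e3 : (U *ᵥ (Pi.single a 1 : m → ℝ)) ⬝ᵥ (U *ᵥ (Pi.single a 1)) = 1 := by
      rw [Matrix.dotProduct_mulVec, Matrix.vecMul_mulVec, ← Matrix.dotProduct_mulVec,
        hU1, Matrix.one_mulVec]
      simp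
    have h2 := hM (U *ᵥ (Pi.single a 1))
    rw [e2, e3, mul_one] at h2
    exact h2
  have hs0 : ∀ a, Real.sqrt (d a) ≠ 0 := fun a =>
    (Real.sqrt_pos.mpr (lt_of_lt_of_le hw (hd a))).ne'
  refine ⟨diagonal (fun a => (Real.sqrt (d a))⁻¹) * Uᵀ, diagonal (fun a => Real.sqrt (d a)) * Uᵀ,
    ?_, ?_⟩
  · rw [Matrix.transpose_mul, Matrix.transpose_transpose, Matrix.diagonal_transpose, hMd]
    calc diagonal (fun a => (Real.sqrt (d a))⁻¹) * Uᵀ * (U * diagonal d * Uᵀ) *
          (U * diagonal (fun a => (Real.sqrt (d a))⁻¹))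
        = diagonal (fun a => (Real.sqrt (d a))⁻¹) * (Uᵀ * U) * diagonal d * (Uᵀ * U) *
          diagonal (fun a => (Real.sqrt (d a))⁻¹) := by simp only [Matrix.mul_assoc]
      _ = 1 := by
          rw [hU1, Matrix.mul_one, Matrix.mul_one, diagonal_mul_diagonal, diagonal_mul_diagonal,
            ← Matrix.diagonal_one]
          congr 1
          funext a
          have h1 : Real.sqrt (d a) * Real.sqrt (d a) = d a :=
            Real.mul_self_sqrt (hw.le.trans (hd a))
          have h2 := hs0 a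
          calc (Real.sqrt (d a))⁻¹ * d a * (Real.sqrt (d a))⁻¹
              = (Real.sqrt (d a))⁻¹ * (Real.sqrt (d a) * Real.sqrt (d a)) * (Real.sqrt (d a))⁻¹ := by
                rw [h1]
            _ = 1 := by field_simp
  · rw [Matrix.transpose_mul, Matrix.transpose_transpose, Matrix.diagonal_transpose]
    calc U * diagonal (fun a => (Real.sqrt (d a))⁻¹) * (diagonal (fun a => Real.sqrt (d a)) * Uᵀ)
        = U * (diagonal (fun a => (Real.sqrt (d a))⁻¹) * diagonal (fun a => Real.sqrt (d a))) * Uᵀ := by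
          simp only [Matrix.mul_assoc]
      _ = 1 := by
          rw [diagonal_mul_diagonal]
          have : (fun a => (Real.sqrt (d a))⁻¹ * Real.sqrt (d a)) = fun _ => 1 := by
            funext a
            exact inv_mul_cancel₀ (hs0 a)
          rw [this, Matrix.diagonal_one, Matrix.mul_one, hU2]

/-- One halving: for symmetric positive semidefinite `Y p ≤ ρ` with `∑_{p ∈ A} Y p ≤ 2 M`,
`M ≥ w`, the number of sign patterns with a large deviation is small. -/
lemma one_halving (Y : ι → Matrix m m ℝ) (hs : ∀ p, (Y p).IsSymm) (h0 : ∀ p v, 0 ≤ qf (Y p) v)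
    {ρ : ℝ} (hρ0 : 0 ≤ ρ) (hρ : ∀ p v, qf (Y p) v ≤ ρ * (v ⬝ᵥ v)) {M : Matrix m m ℝ} (hMs : M.IsSymm)
    {w : ℝ} (hw : 0 < w) (hM : ∀ v, w * (v ⬝ᵥ v) ≤ qf M v) (A : Finset ι)
    (hA : ∀ v, ∑ p ∈ A, qf (Y p) v ≤ 2 * qf M v) {k : ℕ} (hk : 0 < k) {θ : ℝ} (hθ : 0 < θ)
    (B : Finset (ι → Bool))
    (hB : ∀ ε ∈ B, ∃ v : m → ℝ, θ * qf M v < |∑ p ∈ A, sg (ε p) * qf (Y p) v|) :
    (B.card : ℝ) * θ ^ (2 * k) ≤
      (2 * (k : ℝ)) ^ k * (2 * (ρ / w)) ^ k * Fintype.card m * 2 ^ Fintype.card ι := by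
  obtain ⟨R, R', hR, hR'⟩ := exists_root hMs hw hM
  have hR'' : ∀ v : m → ℝ, Rᵀ *ᵥ (R' *ᵥ v) = v := by
    intro v
    rw [Matrix.mulVec_mulVec, hR', Matrix.one_mulVec]
  have hM1 : ∀ u : m → ℝ, qf M (Rᵀ *ᵥ u) = u ⬝ᵥ u := by
    intro u
    rw [← qf_congr, hR, qf_one]
  set H : ι → Matrix m m ℝ := fun p => if p ∈ A then R * Y p * Rᵀ else 0 with hH
  have hHs : ∀ p, (H p).IsSymm := by
    intro p
    simp only [hH]
    split_ifs
    · unfold Matrix.IsSymm
      rw [Matrix.transpose_mul, Matrix.transpose_mul, Matrix.transpose_transpose, hs p,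
        Matrix.mul_assoc]
    · exact Matrix.isSymm_zero
  have hH0 : ∀ p v, 0 ≤ qf (H p) v := by
    intro p v
    simp only [hH]
    split_ifs
    · rw [qf_congr]
      exact h0 p _
    · simp [qf]
  have hHρ : ∀ p v, qf (H p) v ≤ (ρ / w) * (v ⬝ᵥ v) := by
    intro p v
    have hvv : 0 ≤ v ⬝ᵥ v := Finset.sum_nonneg fun a _ => mul_self_nonneg _
    simp only [hH]
    split_ifs
    · rw [qf_congr]
      refine (hρ p _).trans ?_
      have h1 := hM (Rᵀ *ᵥ v)
      rw [hM1] at h1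
      rw [div_mul_eq_mul_div, le_div_iff₀ hw]
      calc ρ * (Rᵀ *ᵥ v ⬝ᵥ Rᵀ *ᵥ v) * w = ρ * (w * (Rᵀ *ᵥ v ⬝ᵥ Rᵀ *ᵥ v)) := by ring
        _ ≤ ρ * (v ⬝ᵥ v) := mul_le_mul_of_nonneg_left h1 hρ0
    · simp only [qf, Matrix.zero_mulVec, dotProduct_zero]
      positivity
  have hQ : ∀ v : m → ℝ, v ⬝ᵥ ((∑ i, H i * H i) *ᵥ v) ≤ (2 * (ρ / w)) * (v ⬝ᵥ v) := by
    intro v
    show qf (∑ i, H i * H i) v ≤ _
    rw [qf_sum]
    calc ∑ i, qf (H i * H i) v ≤ ∑ i, (ρ / w) * qf (H i) v :=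
          Finset.sum_le_sum fun i _ => qf_sq_le (hHs i) (hH0 i) (hHρ i) v
      _ = (ρ / w) * ∑ i ∈ A, qf (Y i) (Rᵀ *ᵥ v) := by
          rw [← Finset.mul_sum]
          congr 1
          rw [← Finset.sum_filter_add_sum_filter_not univ (fun i => i ∈ A)]
          have e1 : ∑ i ∈ univ.filter (fun i => ¬ i ∈ A), qf (H i) v = 0 := by
            apply Finset.sum_eq_zero
            intro i hi
            simp only [Finset.mem_filter, Finset.mem_univ, true_and] at hi
            simp [hH, hi, qf]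
          rw [e1, add_zero]
          have e2 : univ.filter (fun i => i ∈ A) = A := by ext; simp
          rw [e2]
          apply Finset.sum_congr rfl
          intro i hi
          simp only [hH, hi, if_true, qf_congr]
      _ ≤ (ρ / w) * (2 * qf M (Rᵀ *ᵥ v)) := by
          apply mul_le_mul_of_nonneg_left (hA _)
          positivity
      _ = (2 * (ρ / w)) * (v ⬝ᵥ v) := by rw [hM1]; ring
  apply tail hHs (by positivity) hQ hk hθ B
  intro ε hε
  obtain ⟨v, hv⟩ := hB ε hε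
  refine ⟨R' *ᵥ v, ?_⟩
  have e1 : (R' *ᵥ v) ⬝ᵥ (R' *ᵥ v) = qf M v := by
    rw [← hM1, hR'']
  have e2 : (R' *ᵥ v) ⬝ᵥ (rad H ε *ᵥ (R' *ᵥ v)) = ∑ p ∈ A, sg (ε p) * qf (Y p) v := by
    show qf (rad H ε) (R' *ᵥ v) = _
    unfold rad
    rw [qf_sum, ← Finset.sum_filter_add_sum_filter_not univ (fun i => i ∈ A)]
    have e1 : ∑ i ∈ univ.filter (fun i => ¬ i ∈ A), qf (sg (ε i) • H i) (R' *ᵥ v) = 0 := by
      apply Finset.sum_eq_zero
      intro i hi
      simp only [Finset.mem_filter, Finset.mem_univ, true_and] at hi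
      simp [hH, hi, qf]
    rw [e1, add_zero]
    have e2 : univ.filter (fun i => i ∈ A) = A := by ext; simp
    rw [e2]
    apply Finset.sum_congr rfl
    intro i hi
    rw [qf_smul]
    simp only [hH, hi, if_true, qf_congr, hR'']
  rw [e1, e2]
  exact hv

/-! ### Nested halving -/

variable {τ : ℕ}

/-- The nested sets: `p` survives the first `t` halvings. -/
def Us (ω : ι → Fin τ → Bool) (t : ℕ) : Finset ι :=
  univ.filter (fun p => ∀ i : Fin τ, (i : ℕ) < t → ω p i = true)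

lemma mem_Us {ω : ι → Fin τ → Bool} {t : ℕ} {p : ι} :
    p ∈ Us ω t ↔ ∀ i : Fin τ, (i : ℕ) < t → ω p i = true := by
  simp [Us]

lemma Us_zero (ω : ι → Fin τ → Bool) : Us ω 0 = univ := by
  ext p
  simp [mem_Us]

lemma Us_anti (ω : ι → Fin τ → Bool) {s t : ℕ} (h : s ≤ t) : Us ω t ⊆ Us ω s := by
  intro p hp
  rw [mem_Us] at hp ⊢
  exact fun i hi => hp i (by omega)

lemma Us_succ (ω : ι → Fin τ → Bool) (t : Fin τ) :
    Us ω (t + 1) = (Us ω t).filter (fun p => ω p t = true) := by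
  ext p
  simp only [mem_Us, Finset.mem_filter]
  constructor
  · intro h
    exact ⟨fun i hi => h i (by omega), h t (by omega)⟩
  · rintro ⟨h1, h2⟩ i hi
    rcases Nat.lt_or_ge (i : ℕ) t with h | h
    · exact h1 i h
    · have : i = t := by
        apply Fin.ext
        omega
      rw [this]
      exact h2

/-- Replace the bits of level `t`. -/
def rs (t : Fin τ) (ω : ι → Fin τ → Bool) (ε : ι → Bool) : ι → Fin τ → Bool :=
  fun p => Function.update (ω p) t (ε p)

lemma rs_self (t : Fin τ) (ω : ι → Fin τ → Bool) (ε : ι → Bool) (p : ι) : rs t ω ε p t = ε p := by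
  simp [rs]

lemma rs_ne {t i : Fin τ} (h : i ≠ t) (ω : ι → Fin τ → Bool) (ε : ι → Bool) (p : ι) :
    rs t ω ε p i = ω p i := by
  simp [rs, Function.update_of_ne h]

lemma Us_rs (t : Fin τ) (ω : ι → Fin τ → Bool) (ε : ι → Bool) : Us (rs t ω ε) t = Us ω t := by
  ext p
  simp only [mem_Us]
  constructor
  · intro h i hi
    have := h i hi
    rwa [rs_ne (by intro h'; rw [h'] at hi; omega)] at this
  · intro h i hi
    rw [rs_ne (by intro h'; rw [h'] at hi; omega)]
    exact h i hi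

lemma sum_rs (t : Fin τ) (f : (ι → Fin τ → Bool) → ℝ) :
    ∑ ω, ∑ ε, f (rs t ω ε) = 2 ^ Fintype.card ι * ∑ ω, f ω := by
  let Φ : (ι → Fin τ → Bool) × (ι → Bool) → (ι → Fin τ → Bool) × (ι → Bool) :=
    fun x => (rs t x.1 x.2, fun p => x.1 p t)
  have hΦ : Function.Involutive Φ := by
    rintro ⟨ω, ε⟩
    apply Prod.ext
    · funext p i
      by_cases h : i = t
      · rw [h]
        simp [Φ, rs]
      · simp [Φ, rs, Function.update_of_ne h]
    · funext p
      simp [Φ, rs]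
  have h1 : ∑ ω, ∑ ε, f (rs t ω ε)
      = ∑ x : (ι → Fin τ → Bool) × (ι → Bool), f (Φ x).1 := by
    rw [Fintype.sum_prod_type]
  have h2 : ∑ x : (ι → Fin τ → Bool) × (ι → Bool), f (Φ x).1
      = ∑ x : (ι → Fin τ → Bool) × (ι → Bool), f x.1 :=
    Equiv.sum_comp (Function.Involutive.toPerm Φ hΦ)
      (fun x : (ι → Fin τ → Bool) × (ι → Bool) => f x.1)
  rw [h1, h2, Fintype.sum_prod_type]
  simp only [Finset.sum_const, nsmul_eq_mul, Finset.card_univ, Fintype.card_fun, Fintype.card_bool]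
  rw [Finset.mul_sum]
  push_cast
  rfl

/-- Deviation of a nested half. -/
def dev (Y : ι → Matrix m m ℝ) (ω : ι → Fin τ → Bool) (t : ℕ) (v : m → ℝ) : ℝ :=
  ∑ p ∈ Us ω t, qf (Y p) v - (1 / 2) ^ t * ∑ p, qf (Y p) v

/-- The comparison form. -/
def Mt (Y : ι → Matrix m m ℝ) (w : ℝ) (t : ℕ) (v : m → ℝ) : ℝ :=
  (1 / 2) ^ t * ∑ p, qf (Y p) v + w * (v ⬝ᵥ v)

lemma dot_self_nonneg (v : m → ℝ) : 0 ≤ v ⬝ᵥ v := Finset.sum_nonneg fun _ _ => mul_self_nonneg _

lemma Mt_nonneg {Y : ι → Matrix m m ℝ} (h0 : ∀ p v, 0 ≤ qf (Y p) v) {w : ℝ} (hw : 0 ≤ w) (t : ℕ)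
    (v : m → ℝ) : 0 ≤ Mt Y w t v := by
  unfold Mt
  have := dot_self_nonneg v
  have h1 : 0 ≤ ∑ p, qf (Y p) v := Finset.sum_nonneg fun p _ => h0 p v
  positivity

lemma half_Mt_le {Y : ι → Matrix m m ℝ} {w : ℝ} (hw : 0 ≤ w) (t : ℕ)
    (v : m → ℝ) : (1 / 2) * Mt Y w t v ≤ Mt Y w (t + 1) v := by
  unfold Mt
  have := mul_nonneg hw (dot_self_nonneg v)
  rw [pow_succ]
  linarith

lemma dev_succ (Y : ι → Matrix m m ℝ) (ω : ι → Fin τ → Bool) (t : Fin τ) (v : m → ℝ) :
    dev Y ω (t + 1) v = (1 / 2) * dev Y ω t v +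
      (1 / 2) * ∑ p ∈ Us ω t, sg (ω p t) * qf (Y p) v := by
  unfold dev
  rw [Us_succ, Finset.sum_filter]
  have h1 : ∑ p ∈ Us ω t, (if ω p t = true then qf (Y p) v else 0)
      = (1 / 2) * ∑ p ∈ Us ω t, qf (Y p) v + (1 / 2) * ∑ p ∈ Us ω t, sg (ω p t) * qf (Y p) v := by
    rw [Finset.mul_sum, Finset.mul_sum, ← Finset.sum_add_distrib]
    apply Finset.sum_congr rfl
    intro p _
    unfold sg
    split_ifs <;> ring
  rw [h1, pow_succ]
  ring

/-- The halving lemma. -/
theorem halving (Y : ι → Matrix m m ℝ) (hs : ∀ p, (Y p).IsSymm) (h0 : ∀ p v, 0 ≤ qf (Y p) v)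
    {ρ : ℝ} (hρ0 : 0 ≤ ρ) (hρ : ∀ p v, qf (Y p) v ≤ ρ * (v ⬝ᵥ v)) {w : ℝ} (hw : 0 < w)
    {η : ℝ} (hη : 0 < η) (hη1 : η ≤ 1) {k : ℕ} (hk : 0 < k)
    (hbig : 12 * k * ρ * (τ : ℝ) ^ 2 ≤ w * η ^ 2) (B : Finset (ι → Fin τ → Bool))
    (hB : ∀ ω ∈ B, ∃ t ≤ τ, ∃ v, η * Mt Y w t v < |dev Y ω t v|) :
    (B.card : ℝ) ≤ τ * (Fintype.card m * Real.exp (-k)) * Fintype.card (ι → Fin τ → Bool) := by
  classical
  rcases Nat.eq_zero_or_pos τ with hτ0 | hτpos
  · -- no halving
    have : B = ∅ := by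
      rw [Finset.eq_empty_iff_forall_notMem]
      intro ω hω
      obtain ⟨t, ht, v, hv⟩ := hB ω hω
      have ht0 : t = 0 := by omega
      subst ht0
      have h1 : dev Y ω 0 v = 0 := by
        unfold dev
        rw [Us_zero]
        ring
      rw [h1, abs_zero] at hv
      exact absurd hv (not_lt.mpr (mul_nonneg hη.le (Mt_nonneg h0 hw.le _ _)))
    rw [this]
    simp only [Finset.card_empty, Nat.cast_zero]
    positivity
  have hτ : (0 : ℝ) < τ := by exact_mod_cast hτpos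
  set θ : ℝ := η / τ with hθdef
  have hθ : 0 < θ := by positivity
  set δ : ℝ := Fintype.card m * Real.exp (-k) with hδ
  have hδ0 : 0 ≤ δ := by positivity
  -- good up to level t
  let good : ℕ → (ι → Fin τ → Bool) → Prop := fun t ω => ∀ v, |dev Y ω t v| ≤ θ * t * Mt Y w t v
  -- the exceptional set of step `t`
  let bad : Fin τ → Finset (ι → Fin τ → Bool) := fun t =>
    univ.filter (fun ω => good t ω ∧ ∃ v, θ * Mt Y w t v < |∑ p ∈ Us ω t, sg (ω p t) * qf (Y p) v|)
  -- matrices of the comparison forms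
  let M : ℕ → Matrix m m ℝ := fun t => (1 / 2 : ℝ) ^ t • ∑ p, Y p + w • 1
  have hMq : ∀ t v, qf (M t) v = Mt Y w t v := by
    intro t v
    simp only [M, Mt]
    rw [qf_add, qf_smul, qf_smul, qf_one, qf_sum]
  have hMs : ∀ t, (M t).IsSymm := by
    intro t
    simp only [M]
    unfold Matrix.IsSymm
    rw [Matrix.transpose_add, Matrix.transpose_smul, Matrix.transpose_smul, Matrix.transpose_one,
      Matrix.transpose_sum]
    congr 2
    exact Finset.sum_congr rfl fun p _ => hs p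
  have hbadcard : ∀ t : Fin τ, ((bad t).card : ℝ) ≤ δ * Fintype.card (ι → Fin τ → Bool) := by
    intro t
    -- resampling
    have key : ∀ ω : ι → Fin τ → Bool,
        ∑ ε : ι → Bool, (if rs t ω ε ∈ bad t then (1 : ℝ) else 0) ≤ δ * 2 ^ Fintype.card ι := by
      intro ω
      rw [← Finset.sum_filter, Finset.sum_const, nsmul_eq_mul, mul_one]
      set Bω := univ.filter (fun ε : ι → Bool => rs t ω ε ∈ bad t) with hBω
      rcases Finset.eq_empty_or_nonempty Bω with he | hne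
      · rw [he]
        simp only [Finset.card_empty, Nat.cast_zero]
        positivity
      -- `ω` is good
      obtain ⟨ε0, hε0⟩ := hne
      have hg : good t (rs t ω ε0) := by
        have := (Finset.mem_filter.mp hε0).2
        exact (Finset.mem_filter.mp this).2.1
      have hgω : ∀ v, |dev Y ω t v| ≤ θ * t * Mt Y w t v := by
        intro v
        have := hg v
        unfold dev at this ⊢
        rwa [Us_rs] at this
      have hA : ∀ v, ∑ p ∈ Us ω t, qf (Y p) v ≤ 2 * qf (M t) v := by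
        intro v
        rw [hMq]
        have h1 := hgω v
        have h2 := (abs_le.mp h1).2
        have h3 : θ * (t : ℕ) ≤ 1 := by
          have : ((t : ℕ) : ℝ) ≤ τ := by exact_mod_cast t.2.le
          calc θ * (t : ℕ) ≤ θ * τ := mul_le_mul_of_nonneg_left this hθ.le
            _ = η := by rw [hθdef]; field_simp
            _ ≤ 1 := hη1
        have h4 := Mt_nonneg h0 hw.le (t : ℕ) v
        have h5 : θ * (t : ℕ) * Mt Y w t v ≤ 1 * Mt Y w t v := mul_le_mul_of_nonneg_right h3 h4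
        have h6 : (1 / 2 : ℝ) ^ (t : ℕ) * ∑ p, qf (Y p) v ≤ Mt Y w t v := by
          unfold Mt
          have := mul_nonneg hw.le (dot_self_nonneg v)
          linarith
        unfold dev at h2
        linarith
      have hMw : ∀ v, w * (v ⬝ᵥ v) ≤ qf (M t) v := by
        intro v
        rw [hMq]
        unfold Mt
        have h1 : 0 ≤ ∑ p, qf (Y p) v := Finset.sum_nonneg fun p _ => h0 p v
        have : 0 ≤ (1 / 2 : ℝ) ^ (t : ℕ) * ∑ p, qf (Y p) v := by positivity
        linarith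
      have h1 := one_halving Y hs h0 hρ0 hρ (hMs t) hw hMw (Us ω t) hA hk hθ Bω (by
        intro ε hε
        have h2 := (Finset.mem_filter.mp hε).2
        obtain ⟨v, hv⟩ := (Finset.mem_filter.mp h2).2.2
        refine ⟨v, ?_⟩
        rw [hMq]
        rw [Us_rs] at hv
        simp only [rs_self] at hv
        exact hv)
      -- arithmetic
      have h2 : (2 * (k : ℝ)) ^ k * (2 * (ρ / w)) ^ k ≤ (θ ^ 2 / 3) ^ k := by
        rw [← mul_pow]
        apply pow_le_pow_left₀ (by positivity)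
        rw [hθdef, div_pow, le_div_iff₀ (by norm_num : (0:ℝ) < 3), le_div_iff₀ (by positivity)]
        calc 2 * (k : ℝ) * (2 * (ρ / w)) * 3 * (τ : ℝ) ^ 2 = (12 * k * ρ * (τ : ℝ) ^ 2) / w := by
              field_simp
              ring
          _ ≤ (w * η ^ 2) / w := by gcongr
          _ = η ^ 2 := by field_simp
      have h3 : ((3 : ℝ)⁻¹) ^ k ≤ Real.exp (-k) := by
        rw [Real.exp_neg, ← Real.exp_one_pow, ← inv_pow]
        apply pow_le_pow_left₀ (by norm_num)
        apply inv_anti₀ (Real.exp_pos _)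
        have := Real.exp_one_lt_d9
        linarith
      have h4 : (Bω.card : ℝ) * θ ^ (2 * k) ≤
          (θ ^ (2 * k) * ((3 : ℝ)⁻¹) ^ k) * Fintype.card m * 2 ^ Fintype.card ι := by
        refine h1.trans ?_
        have : (θ ^ 2 / 3) ^ k = θ ^ (2 * k) * ((3 : ℝ)⁻¹) ^ k := by
          rw [div_eq_mul_inv, mul_pow, ← pow_mul]
        rw [← this]
        gcongr
      have h5 : 0 < θ ^ (2 * k) := by positivity
      have h6 : (Bω.card : ℝ) ≤ ((3 : ℝ)⁻¹) ^ k * Fintype.card m * 2 ^ Fintype.card ι := by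
        have : (Bω.card : ℝ) * θ ^ (2 * k) ≤
            (((3 : ℝ)⁻¹) ^ k * Fintype.card m * 2 ^ Fintype.card ι) * θ ^ (2 * k) := by
          refine h4.trans (le_of_eq ?_)
          ring
        exact le_of_mul_le_mul_right this h5
      refine h6.trans ?_
      rw [hδ]
      calc ((3 : ℝ)⁻¹) ^ k * Fintype.card m * 2 ^ Fintype.card ι
          ≤ Real.exp (-k) * Fintype.card m * 2 ^ Fintype.card ι := by gcongr
        _ = _ := by ring
    have h1 := sum_rs t (fun ω => if ω ∈ bad t then (1 : ℝ) else 0)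
    have h2 : ∑ ω : ι → Fin τ → Bool, (if ω ∈ bad t then (1 : ℝ) else 0) = (bad t).card := by
      rw [← Finset.sum_filter, Finset.sum_const, nsmul_eq_mul, mul_one]
      congr 2
      ext ω
      simp
    rw [h2] at h1
    have h3 : ∑ ω : ι → Fin τ → Bool, ∑ ε : ι → Bool, (if rs t ω ε ∈ bad t then (1 : ℝ) else 0)
        ≤ ∑ _ω : ι → Fin τ → Bool, δ * 2 ^ Fintype.card ι := Finset.sum_le_sum fun ω _ => key ω
    rw [Finset.sum_const, nsmul_eq_mul, Finset.card_univ] at h3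
    have h4 : (0 : ℝ) < 2 ^ Fintype.card ι := by positivity
    have h5 : (2 : ℝ) ^ Fintype.card ι * (bad t).card ≤
        2 ^ Fintype.card ι * (δ * Fintype.card (ι → Fin τ → Bool)) := by
      rw [← h1]
      refine h3.trans (le_of_eq ?_)
      ring
    exact le_of_mul_le_mul_left h5 h4
  -- outside the exceptional sets everything is good
  have hgood : ∀ ω, (∀ t : Fin τ, ω ∉ bad t) → ∀ t ≤ τ, good t ω := by
    intro ω hω t
    induction t with
    | zero =>
      intro _ v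
      have h1 : dev Y ω 0 v = 0 := by
        unfold dev
        rw [Us_zero]
        ring
      rw [h1]
      simp
    | succ t ih =>
      intro ht v
      have hgt := ih (by omega)
      have h1 : ¬ ∃ v, θ * Mt Y w t v < |∑ p ∈ Us ω t, sg (ω p ⟨t, ht⟩) * qf (Y p) v| := by
        intro hcon
        apply hω ⟨t, ht⟩
        simp only [bad, Finset.mem_filter, Finset.mem_univ, true_and]
        exact ⟨hgt, hcon⟩
      push Not at h1
      have h2 := dev_succ Y ω ⟨t, ht⟩ v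
      simp only at h2
      rw [h2]
      have h3 := hgt v
      have h4 := h1 v
      have h5 := half_Mt_le (Y := Y) hw.le t v
      have h6 := Mt_nonneg h0 hw.le t v
      calc |1 / 2 * dev Y ω t v + 1 / 2 * ∑ p ∈ Us ω t, sg (ω p ⟨t, ht⟩) * qf (Y p) v|
          ≤ |1 / 2 * dev Y ω t v| + |1 / 2 * ∑ p ∈ Us ω t, sg (ω p ⟨t, ht⟩) * qf (Y p) v| :=
            abs_add_le _ _
        _ = 1 / 2 * |dev Y ω t v| + 1 / 2 * |∑ p ∈ Us ω t, sg (ω p ⟨t, ht⟩) * qf (Y p) v| := by
            rw [abs_mul, abs_mul, abs_of_pos (by norm_num : (0:ℝ) < 1 / 2)]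
        _ ≤ 1 / 2 * (θ * t * Mt Y w t v) + 1 / 2 * (θ * Mt Y w t v) := by gcongr
        _ = θ * (t + 1) * (1 / 2 * Mt Y w t v) := by ring
        _ ≤ θ * (t + 1) * Mt Y w (t + 1) v := by gcongr
        _ = θ * (t + 1 : ℕ) * Mt Y w (t + 1) v := by push_cast; ring
  have hsub : B ⊆ univ.biUnion bad := by
    intro ω hω
    by_contra hcon
    have h1 : ∀ t : Fin τ, ω ∉ bad t := by
      intro t ht
      exact hcon (Finset.mem_biUnion.mpr ⟨t, Finset.mem_univ _, ht⟩)
    obtain ⟨t, ht, v, hv⟩ := hB ω hω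
    have h2 := hgood ω h1 t ht v
    have h3 : θ * (t : ℝ) ≤ η := by
      have : (t : ℝ) ≤ τ := by exact_mod_cast ht
      calc θ * (t : ℝ) ≤ θ * τ := mul_le_mul_of_nonneg_left this hθ.le
        _ = η := by rw [hθdef]; field_simp
    have h4 := mul_le_mul_of_nonneg_right h3 (Mt_nonneg h0 hw.le t v)
    linarith
  calc (B.card : ℝ) ≤ ((univ.biUnion bad).card : ℝ) := by exact_mod_cast Finset.card_le_card hsub
    _ ≤ ∑ t : Fin τ, ((bad t).card : ℝ) := by exact_mod_cast Finset.card_biUnion_le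
    _ ≤ ∑ _t : Fin τ, δ * Fintype.card (ι → Fin τ → Bool) :=
        Finset.sum_le_sum fun t _ => hbadcard t
    _ = τ * δ * Fintype.card (ι → Fin τ → Bool) := by
        rw [Finset.sum_const, nsmul_eq_mul, Finset.card_univ, Fintype.card_fin]
        ring

end
end KH98
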