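import Mathlib

set_option autoImplicit false
set_option linter.unusedSectionVars false

/-!
# Matrix Khintchine inequality for Rademacher sums (even moments)
-/

namespace KH98

open Matrix Finset

noncomputable section

variable {m : Type*} [Fintype m] [DecidableEq m]

/-- Diagonalisation of a real symmetric matrix. -/
lemma exists_diag {A : Matrix m m ℝ} (hA : A.IsSymm) : ∃ (U : Matrix m m ℝ) (d : m → ℝ),
    Uᵀ * U = 1 ∧ U * Uᵀ = 1 ∧ A = U * diagonal d * Uᵀ := by
  have hH : A.IsHermitian := by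
    rw [Matrix.IsHermitian, conjTranspose_eq_transpose_of_trivial]
    exact hA
  refine ⟨(hH.eigenvectorUnitary : Matrix m m ℝ), hH.eigenvalues, ?_, ?_, ?_⟩
  · have h := (Matrix.mem_unitaryGroup_iff').mp hH.eigenvectorUnitary.2
    rw [star_eq_conjTranspose, conjTranspose_eq_transpose_of_trivial] at h
    exact h
  · have h := (Matrix.mem_unitaryGroup_iff).mp hH.eigenvectorUnitary.2
    rw [star_eq_conjTranspose, conjTranspose_eq_transpose_of_trivial] at h
    exact h
  · have h := hH.spectral_theorem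
    rw [Unitary.conjStarAlgAut_apply, star_eq_conjTranspose,
      conjTranspose_eq_transpose_of_trivial] at h
    exact h

lemma diag_pow {U : Matrix m m ℝ} {d : m → ℝ} (hU : Uᵀ * U = 1) (hU' : U * Uᵀ = 1) (k : ℕ) :
    (U * diagonal d * Uᵀ) ^ k = U * diagonal (fun i => d i ^ k) * Uᵀ := by
  induction k with
  | zero => simp [hU']
  | succ k ih =>
    rw [pow_succ, ih]
    calc U * diagonal (fun i => d i ^ k) * Uᵀ * (U * diagonal d * Uᵀ)
        = U * diagonal (fun i => d i ^ k) * (Uᵀ * U) * diagonal d * Uᵀ := by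
          simp only [Matrix.mul_assoc]
      _ = U * (diagonal (fun i => d i ^ k) * diagonal d) * Uᵀ := by
          rw [hU, Matrix.mul_one]
          simp only [Matrix.mul_assoc]
      _ = U * diagonal (fun i => d i ^ (k + 1)) * Uᵀ := by
          rw [diagonal_mul_diagonal]
          simp only [pow_succ]

/-- The scalar inequality. -/
lemma scal (x z : ℝ) (K : ℕ) :
    2 * ∑ q ∈ range (2 * K + 1), x ^ q * z ^ (2 * K - q) ≤
      (2 * K + 1) * (x ^ (2 * K) + z ^ (2 * K)) := by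
  have h1 : ∑ q ∈ range (2 * K + 1), x ^ q * z ^ (2 * K - q)
      = ∑ q ∈ range (2 * K + 1), x ^ (2 * K - q) * z ^ q := by
    rw [← Finset.sum_range_reflect]
    apply Finset.sum_congr rfl
    intro q hq
    have hq' : q ≤ 2 * K := by
      have := Finset.mem_range.mp hq
      omega
    have e1 : 2 * K + 1 - 1 - q = 2 * K - q := by omega
    have e2 : 2 * K - (2 * K - q) = q := by omega
    rw [e1, e2]
  have h2 : ∀ q ∈ range (2 * K + 1),
      x ^ q * z ^ (2 * K - q) + x ^ (2 * K - q) * z ^ q ≤ x ^ (2 * K) + z ^ (2 * K) := by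
    intro q hq
    have hq' : q ≤ 2 * K := by
      have := Finset.mem_range.mp hq
      omega
    have a1 : x ^ q * z ^ (2 * K - q) ≤ |x| ^ q * |z| ^ (2 * K - q) := by
      rw [← abs_pow, ← abs_pow, ← abs_mul]
      exact le_abs_self _
    have a2 : x ^ (2 * K - q) * z ^ q ≤ |x| ^ (2 * K - q) * |z| ^ q := by
      rw [← abs_pow, ← abs_pow, ← abs_mul]
      exact le_abs_self _
    have a3 : x ^ (2 * K) = |x| ^ q * |x| ^ (2 * K - q) := by
      rw [← pow_add, show q + (2 * K - q) = 2 * K by omega, pow_mul, pow_mul, sq_abs]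
    have a4 : z ^ (2 * K) = |z| ^ q * |z| ^ (2 * K - q) := by
      rw [← pow_add, show q + (2 * K - q) = 2 * K by omega, pow_mul, pow_mul, sq_abs]
    have a5 : 0 ≤ (|x| ^ q - |z| ^ q) * (|x| ^ (2 * K - q) - |z| ^ (2 * K - q)) := by
      rcases le_total |x| |z| with h | h
      · have b1 := pow_le_pow_left₀ (abs_nonneg x) h q
        have b2 := pow_le_pow_left₀ (abs_nonneg x) h (2 * K - q)
        exact mul_nonneg_of_nonpos_of_nonpos (by linarith) (by linarith)
      · have b1 := pow_le_pow_left₀ (abs_nonneg z) h q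
        have b2 := pow_le_pow_left₀ (abs_nonneg z) h (2 * K - q)
        exact mul_nonneg (by linarith) (by linarith)
    rw [a3, a4]
    nlinarith
  calc 2 * ∑ q ∈ range (2 * K + 1), x ^ q * z ^ (2 * K - q)
      = ∑ q ∈ range (2 * K + 1), (x ^ q * z ^ (2 * K - q) + x ^ (2 * K - q) * z ^ q) := by
        rw [two_mul, Finset.sum_add_distrib]
        nth_rw 2 [h1]
    _ ≤ ∑ _q ∈ range (2 * K + 1), (x ^ (2 * K) + z ^ (2 * K)) := Finset.sum_le_sum h2
    _ = (2 * K + 1) * (x ^ (2 * K) + z ^ (2 * K)) := by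
        rw [Finset.sum_const, Finset.card_range, nsmul_eq_mul]
        push_cast
        ring

lemma trace_form (G : Matrix m m ℝ) (d e : m → ℝ) :
    trace (Gᵀ * diagonal d * G * diagonal e) = ∑ a, ∑ b, G a b ^ 2 * (d a * e b) := by
  rw [Matrix.trace]
  have h : ∀ b, (Gᵀ * diagonal d * G * diagonal e).diag b = ∑ a, G a b ^ 2 * (d a * e b) := by
    intro b
    rw [Matrix.diag_apply, Matrix.mul_diagonal, Matrix.mul_apply, Finset.sum_mul]
    apply Finset.sum_congr rfl
    intro a _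
    rw [Matrix.mul_diagonal, Matrix.transpose_apply]
    ring
  simp only [h]
  rw [Finset.sum_comm]

/-- The trace inequality. -/
lemma trace_ineq {X Z H : Matrix m m ℝ} (hX : X.IsSymm) (hZ : Z.IsSymm) (hH : H.IsSymm) (K : ℕ) :
    2 * ∑ q ∈ range (2 * K + 1), trace (H * X ^ q * H * Z ^ (2 * K - q)) ≤
      (2 * K + 1) * (trace (H * H * X ^ (2 * K)) + trace (H * H * Z ^ (2 * K))) := by
  obtain ⟨U, d, hU1, hU2, hXd⟩ := exists_diag hX
  obtain ⟨V, e, hV1, hV2, hZe⟩ := exists_diag hZ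
  have hHt : Hᵀ = H := hH
  set G := Uᵀ * H * V with hG
  have hGt : Gᵀ = Vᵀ * H * U := by
    rw [hG, Matrix.transpose_mul, Matrix.transpose_mul, Matrix.transpose_transpose, hHt,
      Matrix.mul_assoc]
  have h1 : ∀ q r : ℕ, trace (H * X ^ q * H * Z ^ r)
      = ∑ a, ∑ b, G a b ^ 2 * (d a ^ q * e b ^ r) := by
    intro q r
    rw [hXd, hZe, diag_pow hU1 hU2, diag_pow hV1 hV2, ← trace_form, hGt, hG]
    have : H * (U * diagonal (fun i => d i ^ q) * Uᵀ) * H * (V * diagonal (fun i => e i ^ r) * Vᵀ)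
        = (H * U * diagonal (fun i => d i ^ q) * Uᵀ * H * V * diagonal (fun i => e i ^ r)) * Vᵀ := by
      simp only [Matrix.mul_assoc]
    rw [this, Matrix.trace_mul_comm]
    simp only [Matrix.mul_assoc]
  have h2 : trace (H * H * X ^ (2 * K)) = ∑ a, ∑ b, G a b ^ 2 * d a ^ (2 * K) := by
    have := trace_form G (fun a => d a ^ (2 * K)) (fun _ => 1)
    simp only [mul_one] at this
    rw [← this, hGt, hG, hXd, diag_pow hU1 hU2]
    have e1 : diagonal (fun _ : m => (1 : ℝ)) = 1 := Matrix.diagonal_one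
    rw [e1, Matrix.mul_one]
    have e2 : H * H * (U * diagonal (fun i => d i ^ (2 * K)) * Uᵀ)
        = H * (H * U * diagonal (fun i => d i ^ (2 * K)) * Uᵀ) := by
      simp only [Matrix.mul_assoc]
    rw [e2, Matrix.trace_mul_comm]
    have e3 : Vᵀ * H * U * diagonal (fun i => d i ^ (2 * K)) * (Uᵀ * H * V)
        = (Vᵀ * H * U * diagonal (fun i => d i ^ (2 * K)) * Uᵀ * H) * V := by
      simp only [Matrix.mul_assoc]
    rw [e3, Matrix.trace_mul_comm (Vᵀ * H * U * diagonal (fun i => d i ^ (2 * K)) * Uᵀ * H) V]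
    congr 1
    calc H * U * diagonal (fun i => d i ^ (2 * K)) * Uᵀ * H
        = (V * Vᵀ) * (H * U * diagonal (fun i => d i ^ (2 * K)) * Uᵀ * H) := by
          rw [hV2, Matrix.one_mul]
      _ = V * (Vᵀ * H * U * diagonal (fun i => d i ^ (2 * K)) * Uᵀ * H) := by
          simp only [Matrix.mul_assoc]
  have h3 : trace (H * H * Z ^ (2 * K)) = ∑ a, ∑ b, G a b ^ 2 * e b ^ (2 * K) := by
    have := trace_form G (fun _ => 1) (fun b => e b ^ (2 * K))
    simp only [one_mul] at this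
    rw [← this, hGt, hG, hZe, diag_pow hV1 hV2]
    have e1 : diagonal (fun _ : m => (1 : ℝ)) = 1 := Matrix.diagonal_one
    rw [e1, Matrix.mul_one]
    have e2 : H * H * (V * diagonal (fun i => e i ^ (2 * K)) * Vᵀ)
        = (H * H * V * diagonal (fun i => e i ^ (2 * K))) * Vᵀ := by
      simp only [Matrix.mul_assoc]
    rw [e2, Matrix.trace_mul_comm]
    congr 1
    calc Vᵀ * (H * H * V * diagonal (fun i => e i ^ (2 * K)))
        = Vᵀ * H * 1 * H * V * diagonal (fun i => e i ^ (2 * K)) := by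
          rw [Matrix.mul_one]
          simp only [Matrix.mul_assoc]
      _ = Vᵀ * H * (U * Uᵀ) * H * V * diagonal (fun i => e i ^ (2 * K)) := by rw [hU2]
      _ = Vᵀ * H * U * (Uᵀ * H * V) * diagonal (fun i => e i ^ (2 * K)) := by
          simp only [Matrix.mul_assoc]
  simp only [h1]
  rw [h2, h3]
  rw [Finset.sum_comm, Finset.mul_sum, ← Finset.sum_add_distrib, Finset.mul_sum]
  apply Finset.sum_le_sum
  intro a _
  rw [Finset.sum_comm, Finset.mul_sum, ← Finset.sum_add_distrib, Finset.mul_sum]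
  apply Finset.sum_le_sum
  intro b _
  rw [← Finset.mul_sum]
  have := mul_le_mul_of_nonneg_left (scal (d a) (e b) K) (sq_nonneg (G a b))
  nlinarith

variable {ι : Type*} [Fintype ι] [DecidableEq ι]

/-- The sign of a bit. -/
def sg (b : Bool) : ℝ := if b then 1 else -1

lemma sg_sq (b : Bool) : sg b * sg b = 1 := by cases b <;> simp [sg]

lemma sg_not (b : Bool) : sg (!b) = -sg b := by cases b <;> simp [sg]

/-- The Rademacher sum. -/
def rad (H : ι → Matrix m m ℝ) (ε : ι → Bool) : Matrix m m ℝ := ∑ i, sg (ε i) • H i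

lemma rad_symm {H : ι → Matrix m m ℝ} (hH : ∀ i, (H i).IsSymm) (ε : ι → Bool) :
    (rad H ε).IsSymm := by
  unfold rad Matrix.IsSymm
  rw [Matrix.transpose_sum]
  apply Finset.sum_congr rfl
  intro i _
  rw [Matrix.transpose_smul, hH i]

/-- Flip a bit. -/
def fl (i : ι) (ε : ι → Bool) : ι → Bool := Function.update ε i (!ε i)

lemma fl_fl (i : ι) (ε : ι → Bool) : fl i (fl i ε) = ε := by
  unfold fl
  simp

lemma sum_fl (i : ι) (f : (ι → Bool) → ℝ) : ∑ ε, f (fl i ε) = ∑ ε, f ε :=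
  Equiv.sum_comp (Function.Involutive.toPerm (fl i) (fl_fl i)) f

lemma rad_sub_fl (H : ι → Matrix m m ℝ) (i : ι) (ε : ι → Bool) :
    rad H ε - rad H (fl i ε) = (2 * sg (ε i)) • H i := by
  unfold rad
  rw [← Finset.sum_sub_distrib, Finset.sum_eq_single i]
  · unfold fl
    rw [Function.update_self, sg_not]
    module
  · intro j _ hj
    unfold fl
    rw [Function.update_of_ne hj]
    simp
  · intro h
    exact absurd (Finset.mem_univ i) h

lemma pow_sub_pow' (X Y : Matrix m m ℝ) (N : ℕ) :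
    X ^ (N + 1) - Y ^ (N + 1) = ∑ q ∈ range (N + 1), X ^ q * (X - Y) * Y ^ (N - q) := by
  induction N with
  | zero => simp
  | succ N ih =>
    rw [Finset.sum_range_succ, Nat.sub_self, pow_zero, Matrix.mul_one]
    have h1 : ∑ q ∈ range (N + 1), X ^ q * (X - Y) * Y ^ (N + 1 - q)
        = (∑ q ∈ range (N + 1), X ^ q * (X - Y) * Y ^ (N - q)) * Y := by
      rw [Finset.sum_mul]
      apply Finset.sum_congr rfl
      intro q hq
      have hq' : q ≤ N := by
        have := Finset.mem_range.mp hq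
        omega
      rw [show N + 1 - q = (N - q) + 1 by omega, pow_succ]
      simp only [Matrix.mul_assoc]
    rw [h1, ← ih, Matrix.sub_mul, ← pow_succ, Matrix.mul_sub, ← pow_succ]
    have h2 : X ^ (N + 1) * Y = X ^ (N + 1) * Y := rfl
    abel

/-- One variable. -/
lemma one_var {H : ι → Matrix m m ℝ} (hH : ∀ i, (H i).IsSymm) (i : ι) (K : ℕ) :
    ∑ ε, sg (ε i) * trace (H i * rad H ε ^ (2 * K + 1)) ≤
      (2 * K + 1) * ∑ ε, trace (H i * H i * rad H ε ^ (2 * K)) := by
  set F : (ι → Bool) → ℝ := fun ε => sg (ε i) * trace (H i * rad H ε ^ (2 * K + 1)) with hF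
  set G : (ι → Bool) → ℝ := fun ε => trace (H i * H i * rad H ε ^ (2 * K)) with hG
  have key : ∀ ε, F ε + F (fl i ε) ≤ (2 * K + 1) * (G ε + G (fl i ε)) := by
    intro ε
    have e1 : sg (fl i ε i) = -sg (ε i) := by
      unfold fl
      rw [Function.update_self, sg_not]
    have e2 : F ε + F (fl i ε)
        = 2 * ∑ q ∈ range (2 * K + 1),
          trace (H i * rad H ε ^ q * H i * rad H (fl i ε) ^ (2 * K - q)) := by
      have e3 : F ε + F (fl i ε) = sg (ε i) * trace (H i * (rad H ε ^ (2 * K + 1)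
          - rad H (fl i ε) ^ (2 * K + 1))) := by
        simp only [hF]
        rw [e1, Matrix.mul_sub, Matrix.trace_sub]
        ring
      rw [e3, pow_sub_pow', rad_sub_fl, Finset.mul_sum, Matrix.trace_sum, Finset.mul_sum,
        Finset.mul_sum]
      apply Finset.sum_congr rfl
      intro q _
      have e4 : H i * (rad H ε ^ q * ((2 * sg (ε i)) • H i) * rad H (fl i ε) ^ (2 * K - q))
          = (2 * sg (ε i)) • (H i * rad H ε ^ q * H i * rad H (fl i ε) ^ (2 * K - q)) := by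
        simp only [Matrix.mul_smul, Matrix.smul_mul, Matrix.mul_assoc]
      rw [e4, Matrix.trace_smul, smul_eq_mul, ← mul_assoc,
        show sg (ε i) * (2 * sg (ε i)) = 2 * (sg (ε i) * sg (ε i)) by ring, sg_sq]
      ring
    rw [e2]
    exact trace_ineq (rad_symm hH ε) (rad_symm hH _) (hH i) K
  have h1 : ∑ ε, (F ε + F (fl i ε)) ≤ ∑ ε, (2 * K + 1) * (G ε + G (fl i ε)) :=
    Finset.sum_le_sum fun ε _ => key ε
  rw [Finset.sum_add_distrib, sum_fl i F, ← Finset.mul_sum, Finset.sum_add_distrib,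
    sum_fl i G] at h1
  linarith

/-- `tr (Q S²ᴷ) ≤ c tr S²ᴷ` if `Q ≤ c`. -/
lemma trace_le {Q S : Matrix m m ℝ} (hS : S.IsSymm) {c : ℝ}
    (hQ : ∀ v : m → ℝ, v ⬝ᵥ (Q *ᵥ v) ≤ c * (v ⬝ᵥ v)) (K : ℕ) :
    trace (Q * S ^ (2 * K)) ≤ c * trace (S ^ (2 * K)) := by
  have hP : (S ^ K)ᵀ = S ^ K := by
    rw [Matrix.transpose_pow, hS]
  have h1 : trace (Q * S ^ (2 * K)) = ∑ a, (S ^ K) a ⬝ᵥ (Q *ᵥ (S ^ K) a) := by
    rw [two_mul, pow_add, ← Matrix.mul_assoc, Matrix.trace_mul_comm, Matrix.trace]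
    apply Finset.sum_congr rfl
    intro a _
    rw [Matrix.diag_apply, Matrix.mul_apply, dotProduct]
    apply Finset.sum_congr rfl
    intro b _
    congr 1
    rw [Matrix.mul_apply, Matrix.mulVec, dotProduct]
    apply Finset.sum_congr rfl
    intro c' _
    congr 1
    have := congrFun (congrFun hP c') a
    rw [Matrix.transpose_apply] at this
    exact this.symm
  have h2 : trace (S ^ (2 * K)) = ∑ a, (S ^ K) a ⬝ᵥ (S ^ K) a := by
    rw [two_mul, pow_add, Matrix.trace]
    apply Finset.sum_congr rfl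
    intro a _
    rw [Matrix.diag_apply, Matrix.mul_apply, dotProduct]
    apply Finset.sum_congr rfl
    intro b _
    congr 1
    have := congrFun (congrFun hP b) a
    rw [Matrix.transpose_apply] at this
    exact this.symm
  rw [h1, h2, Finset.mul_sum]
  exact Finset.sum_le_sum fun a _ => hQ _

lemma trace_step {H : ι → Matrix m m ℝ} (hH : ∀ i, (H i).IsSymm) {c : ℝ}
    (hQ : ∀ v : m → ℝ, v ⬝ᵥ ((∑ i, H i * H i) *ᵥ v) ≤ c * (v ⬝ᵥ v)) (K : ℕ) :
    ∑ ε, trace (rad H ε ^ (2 * (K + 1))) ≤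
      (2 * K + 1) * c * ∑ ε, trace (rad H ε ^ (2 * K)) := by
  have h1 : ∀ ε : ι → Bool, trace (rad H ε ^ (2 * (K + 1)))
      = ∑ i, sg (ε i) * trace (H i * rad H ε ^ (2 * K + 1)) := by
    intro ε
    have : rad H ε ^ (2 * (K + 1)) = rad H ε * rad H ε ^ (2 * K + 1) := by
      rw [← pow_succ', show 2 * (K + 1) = 2 * K + 1 + 1 by ring]
    rw [this]
    conv_lhs => rw [rad, Finset.sum_mul, Matrix.trace_sum]
    apply Finset.sum_congr rfl
    intro i _
    rw [Matrix.smul_mul, Matrix.trace_smul, smul_eq_mul]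
    rfl
  simp only [h1]
  rw [Finset.sum_comm]
  calc ∑ i, ∑ ε, sg (ε i) * trace (H i * rad H ε ^ (2 * K + 1))
      ≤ ∑ i, (2 * K + 1) * ∑ ε, trace (H i * H i * rad H ε ^ (2 * K)) :=
        Finset.sum_le_sum fun i _ => one_var hH i K
    _ = (2 * K + 1) * ∑ ε, trace ((∑ i, H i * H i) * rad H ε ^ (2 * K)) := by
        rw [← Finset.mul_sum, Finset.sum_comm]
        congr 1
        apply Finset.sum_congr rfl
        intro ε _
        rw [Finset.sum_mul, Matrix.trace_sum]
    _ ≤ (2 * K + 1) * ∑ ε, c * trace (rad H ε ^ (2 * K)) := by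
        apply mul_le_mul_of_nonneg_left _ (by positivity)
        exact Finset.sum_le_sum fun ε _ => trace_le (rad_symm hH ε) hQ K
    _ = (2 * K + 1) * c * ∑ ε, trace (rad H ε ^ (2 * K)) := by
        rw [← Finset.mul_sum]
        ring

/-- Matrix Khintchine inequality: `E tr S²ᵏ ≤ (2k)^k cᵏ m` for a Rademacher sum `S` of symmetric
matrices with `∑ Hᵢ² ≤ c`. -/
theorem khintchine {H : ι → Matrix m m ℝ} (hH : ∀ i, (H i).IsSymm) {c : ℝ} (hc : 0 ≤ c)
    (hQ : ∀ v : m → ℝ, v ⬝ᵥ ((∑ i, H i * H i) *ᵥ v) ≤ c * (v ⬝ᵥ v)) (k : ℕ) :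
    ∑ ε, trace (rad H ε ^ (2 * k)) ≤
      (2 * (k : ℝ)) ^ k * c ^ k * Fintype.card m * 2 ^ Fintype.card ι := by
  have main : ∀ N k : ℕ, k ≤ N → ∑ ε, trace (rad H ε ^ (2 * k)) ≤
      (2 * (N : ℝ)) ^ k * c ^ k * Fintype.card m * 2 ^ Fintype.card ι := by
    intro N k
    induction k with
    | zero =>
      intro _
      simp only [mul_zero, pow_zero, Matrix.trace_one, Finset.sum_const, one_mul, nsmul_eq_mul]
      rw [Finset.card_univ, Fintype.card_fun, Fintype.card_bool]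
      push_cast
      rw [mul_comm]
    | succ k ih =>
      intro hk
      refine (trace_step hH hQ k).trans ?_
      have h1 := ih (by omega)
      have h2 : (2 * (k : ℝ) + 1) ≤ 2 * N := by
        have : ((k : ℝ) + 1) ≤ N := by exact_mod_cast hk
        linarith
      have h3 : 0 ≤ (2 * (N : ℝ)) ^ k * c ^ k * Fintype.card m * 2 ^ Fintype.card ι := by
        positivity
      calc (2 * (k : ℝ) + 1) * c * ∑ ε, trace (rad H ε ^ (2 * k))
          ≤ (2 * (k : ℝ) + 1) * c *
            ((2 * (N : ℝ)) ^ k * c ^ k * Fintype.card m * 2 ^ Fintype.card ι) := by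
            apply mul_le_mul_of_nonneg_left h1
            positivity
        _ ≤ (2 * (N : ℝ)) * c *
            ((2 * (N : ℝ)) ^ k * c ^ k * Fintype.card m * 2 ^ Fintype.card ι) := by
            apply mul_le_mul_of_nonneg_right _ h3
            exact mul_le_mul_of_nonneg_right h2 hc
        _ = _ := by ring
  exact main k k le_rfl

/-- A quadratic form bound from the trace of an even power. -/
lemma form_le {S : Matrix m m ℝ} (hS : S.IsSymm) {θ : ℝ} (hθ : 0 ≤ θ) {k : ℕ} (hk : 0 < k)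
    (h : trace (S ^ (2 * k)) ≤ θ ^ (2 * k)) (v : m → ℝ) :
    |v ⬝ᵥ (S *ᵥ v)| ≤ θ * (v ⬝ᵥ v) := by
  obtain ⟨U, d, hU1, hU2, hSd⟩ := exists_diag hS
  have h1 : trace (S ^ (2 * k)) = ∑ a, d a ^ (2 * k) := by
    rw [hSd, diag_pow hU1 hU2, Matrix.mul_assoc, Matrix.trace_mul_comm, Matrix.mul_assoc, hU1,
      Matrix.mul_one, Matrix.trace_diagonal]
  have h2 : ∀ a, |d a| ≤ θ := by
    intro a
    have h3 : d a ^ (2 * k) ≤ θ ^ (2 * k) := by
      refine le_trans ?_ (h1 ▸ h)
      exact Finset.single_le_sum (f := fun a => d a ^ (2 * k))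
        (fun b _ => by rw [pow_mul]; positivity) (Finset.mem_univ a)
    have h4 : |d a| ^ (2 * k) ≤ θ ^ (2 * k) := by
      rw [pow_mul, sq_abs, ← pow_mul]
      exact h3
    exact le_of_pow_le_pow_left₀ (by omega) hθ h4
  set w := Uᵀ *ᵥ v with hw
  have h3 : v ⬝ᵥ (S *ᵥ v) = ∑ a, d a * w a ^ 2 := by
    rw [hSd, ← Matrix.mulVec_mulVec, ← Matrix.mulVec_mulVec, Matrix.dotProduct_mulVec,
      ← Matrix.mulVec_transpose, ← hw, dotProduct]
    apply Finset.sum_congr rfl
    intro a _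
    rw [Matrix.mulVec_diagonal]
    ring
  have h4 : v ⬝ᵥ v = ∑ a, w a ^ 2 := by
    have : v ⬝ᵥ v = w ⬝ᵥ w := by
      rw [hw, Matrix.dotProduct_mulVec, Matrix.vecMul_mulVec, ← Matrix.dotProduct_mulVec]
      rw [Matrix.transpose_transpose, hU2, Matrix.one_mulVec]
    rw [this, dotProduct]
    apply Finset.sum_congr rfl
    intro a _
    ring
  rw [h3, h4, Finset.mul_sum]
  refine (Finset.abs_sum_le_sum_abs _ _).trans (Finset.sum_le_sum fun a _ => ?_)
  rw [abs_mul, abs_of_nonneg (sq_nonneg (w a))]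
  exact mul_le_mul_of_nonneg_right (h2 a) (sq_nonneg _)

/-- Tail bound by counting. -/
theorem tail {H : ι → Matrix m m ℝ} (hH : ∀ i, (H i).IsSymm) {c : ℝ} (hc : 0 ≤ c)
    (hQ : ∀ v : m → ℝ, v ⬝ᵥ ((∑ i, H i * H i) *ᵥ v) ≤ c * (v ⬝ᵥ v)) {k : ℕ} (hk : 0 < k)
    {θ : ℝ} (hθ : 0 < θ) (B : Finset (ι → Bool))
    (hB : ∀ ε ∈ B, ∃ v : m → ℝ, θ * (v ⬝ᵥ v) < |v ⬝ᵥ (rad H ε *ᵥ v)|) :
    (B.card : ℝ) * θ ^ (2 * k) ≤
      (2 * (k : ℝ)) ^ k * c ^ k * Fintype.card m * 2 ^ Fintype.card ι := by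
  have h1 : ∀ ε ∈ B, θ ^ (2 * k) ≤ trace (rad H ε ^ (2 * k)) := by
    intro ε hε
    by_contra hcon
    push Not at hcon
    obtain ⟨v, hv⟩ := hB ε hε
    exact absurd (form_le (rad_symm hH ε) hθ.le hk hcon.le v) (not_le.mpr hv)
  have h2 : ∀ ε : ι → Bool, 0 ≤ trace (rad H ε ^ (2 * k)) := by
    intro ε
    have := trace_le (Q := 0) (rad_symm hH ε) (c := 1) (by
      intro v
      rw [Matrix.zero_mulVec, dotProduct_zero, one_mul]
      exact Finset.sum_nonneg fun a _ => mul_self_nonneg _) k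
    rw [Matrix.zero_mul, Matrix.trace_zero, one_mul] at this
    exact this
  refine le_trans ?_ (khintchine hH hc hQ k)
  calc (B.card : ℝ) * θ ^ (2 * k) = ∑ _ε ∈ B, θ ^ (2 * k) := by
        rw [Finset.sum_const, nsmul_eq_mul]
    _ ≤ ∑ ε ∈ B, trace (rad H ε ^ (2 * k)) := Finset.sum_le_sum h1
    _ ≤ ∑ ε, trace (rad H ε ^ (2 * k)) :=
        Finset.sum_le_sum_of_subset_of_nonneg (Finset.subset_univ _) fun ε _ _ => h2 ε

end
end KH98
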