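import Pool.Agent.LibKh98.Brid
import Pool.Agent.LibKS77.Main

set_option autoImplicit false
set_option linter.unusedSectionVars false

/-!
# Module S: the sampling theorem in the form used by the outer induction
-/

namespace KH98

open Matrix Finset Pool.Agent.LibKG64

noncomputable section

variable {m : Type*} [Fintype m] [DecidableEq m]
variable {ι : Type*} [Fintype ι] [DecidableEq ι]

/-- The batches: `bt p` is the batch of the variable `p`. -/
structure Sampled (a : ι → m → ℝ) (W : ℝ) (Q : ℕ → Matrix m m ℝ) (l T : ℕ) (bt : ι → ℕ) : Prop where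
  le : ∀ p, bt p ≤ T
  S1 : ∀ s ≤ T, ∀ v : m → ℝ,
    |∑ p ∈ univ.filter (fun p => s < bt p), (a p ⬝ᵥ v) ^ 2 - (1 / W) ^ s * ∑ p, (a p ⬝ᵥ v) ^ 2| ≤
      1 / (l : ℝ) ^ 5 * ((1 / W) ^ s * ∑ p, (a p ⬝ᵥ v) ^ 2 + W * (v ⬝ᵥ v))
  S2 : ∀ j, ∑ p ∈ univ.filter (fun p => 1 ≤ bt p ∧ |((1 - Q (bt p)) *ᵥ a p) j| < 1 / (l : ℝ) ^ 4),
    (((1 - Q (bt p)) *ᵥ a p) j) ^ 2 ≤ 1 / (l : ℝ) ^ 2
  S3 : ∀ j p p', 1 ≤ bt p → 1 ≤ bt p' → 1 / (l : ℝ) ^ 4 ≤ |((1 - Q (bt p)) *ᵥ a p) j| →
    1 / (l : ℝ) ^ 4 ≤ |((1 - Q (bt p')) *ᵥ a p') j| → p = p'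

/-- From a chain of sets to a batch function. -/
lemma exists_bt {T : ℕ} (V U : ℕ → Finset ι) (hUT : U T = ∅) (h0 : V 0 ∪ U 0 = univ)
    (h0' : Disjoint (V 0) (U 0))
    (hU : ∀ s < T, U s = V (s + 1) ∪ U (s + 1) ∧ Disjoint (V (s + 1)) (U (s + 1))) :
    ∃ bt : ι → ℕ, (∀ p, bt p ≤ T) ∧ (∀ s ≤ T, ∀ p, s < bt p ↔ p ∈ U s) ∧
      (∀ i < T, ∀ p, bt p = i + 1 ↔ p ∈ V (i + 1)) := by
  classical
  have hex : ∀ p, ∃ s, s ≤ T ∧ p ∈ V s := by
    intro p
    by_contra hcon
    push Not at hcon
    have h1 : ∀ s ≤ T, p ∈ U s := by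
      intro s
      induction s with
      | zero =>
        intro _
        have h2 : p ∈ V 0 ∪ U 0 := by rw [h0]; exact Finset.mem_univ p
        rcases Finset.mem_union.mp h2 with h | h
        · exact absurd h (hcon 0 (Nat.zero_le _))
        · exact h
      | succ s ih =>
        intro hs
        have h2 := ih (by omega)
        rw [(hU s (by omega)).1] at h2
        rcases Finset.mem_union.mp h2 with h | h
        · exact absurd h (hcon (s + 1) hs)
        · exact h
    have := h1 T le_rfl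
    rw [hUT] at this
    exact absurd this (Finset.notMem_empty p)
  let bt : ι → ℕ := fun p => Nat.find (hex p)
  have hbt : ∀ p, bt p ≤ T ∧ p ∈ V (bt p) := fun p => Nat.find_spec (hex p)
  have hmin : ∀ p s, s < bt p → s ≤ T → p ∉ V s := by
    intro p s hs hsT hV
    exact Nat.find_min (hex p) hs ⟨hsT, hV⟩
  have hA : ∀ p s, s < bt p → p ∈ U s := by
    intro p s
    induction s with
    | zero =>
      intro hs
      have h2 : p ∈ V 0 ∪ U 0 := by rw [h0]; exact Finset.mem_univ p
      rcases Finset.mem_union.mp h2 with h | h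
      · exact absurd h (hmin p 0 hs (Nat.zero_le _))
      · exact h
    | succ s ih =>
      intro hs
      have hT := (hbt p).1
      have h2 := ih (by omega)
      rw [(hU s (by omega)).1] at h2
      rcases Finset.mem_union.mp h2 with h | h
      · exact absurd h (hmin p (s + 1) hs (by omega))
      · exact h
  have hdis : ∀ s ≤ T, Disjoint (V s) (U s) := by
    intro s hs
    rcases Nat.eq_zero_or_pos s with h | h
    · rw [h]; exact h0'
    · obtain ⟨s', rfl⟩ : ∃ s', s = s' + 1 := ⟨s - 1, by omega⟩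
      exact (hU s' (by omega)).2
  have hB : ∀ p s, bt p ≤ s → s ≤ T → p ∉ U s := by
    intro p s hs
    induction s, hs using Nat.le_induction with
    | base =>
      intro hsT hp
      exact (Finset.disjoint_left.mp (hdis _ hsT)) (hbt p).2 hp
    | succ s hs ih =>
      intro hsT hp
      apply ih (by omega)
      rw [(hU s (by omega)).1]
      exact Finset.mem_union_right _ hp
  have hC : ∀ s ≤ T, ∀ p, s < bt p ↔ p ∈ U s := by
    intro s hs p
    constructor
    · exact hA p s
    · intro hp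
      by_contra hcon
      exact hB p s (by omega) hs hp
  refine ⟨bt, fun p => (hbt p).1, hC, ?_⟩
  intro i hi p
  constructor
  · intro h
    rw [← h]
    exact (hbt p).2
  · intro hp
    have h1 : p ∈ U i := by
      rw [(hU i hi).1]
      exact Finset.mem_union_left _ hp
    have h2 := (hC i (by omega) p).mpr h1
    have h3 : ¬ (i + 1 < bt p) := by
      intro h
      exact (Finset.disjoint_left.mp (hdis (i + 1) (by omega))) hp ((hC (i + 1) (by omega) p).mp h)
    omega

/-- Module S.  `W = 2^w ≥ l^20`, `w² ≤ l`, `T = l`. -/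
theorem moduleS (a : ι → m → ℝ) (ha : ∀ p, a p ⬝ᵥ a p ≤ 1) {l w : ℕ} (hl : 1000 ≤ l)
    (hwl : w ^ 2 ≤ l) (hw : l ^ 20 ≤ 2 ^ w) (hn : (Fintype.card ι : ℝ) ≤ Real.exp l)
    (hm : (Fintype.card m : ℝ) ≤ Real.exp (2 * l)) {Q : ℕ → Matrix m m ℝ}
    (hQ : SFlag a ((2 : ℝ) ^ w) Q) :
    ∃ bt : ι → ℕ, Sampled a ((2 : ℝ) ^ w) Q l l bt := by
  classical
  set W : ℝ := (2 : ℝ) ^ w with hWdef
  set L : ℝ := (l : ℝ) with hL
  have hL1000 : (1000 : ℝ) ≤ L := by rw [hL]; exact_mod_cast hl
  have hL0 : 0 < L := by linarith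
  have hL1 : 1 ≤ L := by linarith
  have hWL : L ^ 20 ≤ W := by rw [hL, hWdef]; exact_mod_cast hw
  have hL20 : 1 ≤ L ^ 20 := one_le_pow₀ hL1
  have hW1 : 1 ≤ W := hL20.trans hWL
  have hW0 : 0 < W := by linarith
  have hw1 : 1 ≤ w := by
    by_contra hcon
    have : w = 0 := by omega
    rw [this] at hw
    have h2 : 2 ≤ l ^ 20 := by
      calc 2 ≤ l := by omega
        _ = l ^ 1 := (pow_one l).symm
        _ ≤ l ^ 20 := Nat.pow_le_pow_right (by omega) (by norm_num)
    simp at hw
    omega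
  have hwL : (w : ℝ) ^ 2 ≤ L := by rw [hL]; exact_mod_cast hwl
  have hwR1 : (1 : ℝ) ≤ w := by exact_mod_cast hw1
  -- powers of `L`
  have pw : ∀ i j : ℕ, i ≤ j → L ^ i ≤ L ^ j := fun i j hij => pow_le_pow_right₀ hL1 hij
  set g : ℝ := 1 / L ^ 4 with hg
  set eo : ℝ := 1 / W ^ 10 with heo
  set η : ℝ := 1 / L ^ 5 with hη
  have heo0 : 0 ≤ eo := by positivity
  have hg0 : 0 < g := by positivity
  have hη0 : 0 < η := by positivity
  have hη1 : η ≤ 1 := by
    rw [hη, div_le_one (by positivity)]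
    exact one_le_pow₀ hL1
  have hT0 : 0 < l := by omega
  have hκ : 0 < 5 * l := by omega
  -- `eo / g⁴ ≤ L⁻¹⁸⁴`
  have hegL : eo / g ^ 4 ≤ 1 / L ^ 184 := by
    have h1 : eo / g ^ 4 = L ^ 16 / W ^ 10 := by
      rw [heo, hg, _root_.one_div_pow]
      rw [← pow_mul]
      field_simp
    have h2 : L ^ 200 ≤ W ^ 10 := by
      calc L ^ 200 = (L ^ 20) ^ 10 := by rw [← pow_mul]
        _ ≤ W ^ 10 := pow_le_pow_left₀ (by positivity) hWL 10
    rw [h1, div_le_div_iff₀ (by positivity) (by positivity), one_mul, ← pow_add]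
    exact h2
  have heg0 : 0 ≤ eo / g ^ 4 := by positivity
  -- `K = w l`
  have hK : ((w * l : ℕ) : ℝ) ^ 2 ≤ L ^ 3 := by
    push_cast
    rw [mul_pow]
    calc (w : ℝ) ^ 2 * (l : ℝ) ^ 2 ≤ L * L ^ 2 := by
          rw [← hL]
          gcongr
      _ = L ^ 3 := by ring
  have hK0 : 0 ≤ ((w * l : ℕ) : ℝ) ^ 2 := by positivity
  set K2 : ℝ := ((w * l : ℕ) : ℝ) ^ 2 with hK2
  have hκc : ((5 * l : ℕ) : ℝ) = 5 * L := by rw [hL]; push_cast; ring
  have hb1 : 12 * ((5 * l : ℕ) : ℝ) * K2 ≤ 60 * L ^ 4 := by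
    rw [hκc]
    calc 12 * (5 * L) * K2 ≤ 12 * (5 * L) * L ^ 3 := by gcongr
      _ = 60 * L ^ 4 := by ring
  have h60 : (60 : ℝ) ≤ L := by linarith
  obtain ⟨V, U, hUT, h0, h0', hU, hS1, hS2, hS3⟩ := Pool.Agent.LibKS77.sampling (k := w) (T := l)
    (D := 2 * l) (κ := 5 * l) (g := g) (eo := eo) (η := η) (W := W) (w₁ := 60 * L ^ 4) (w₂ := 1)
    (w₃ := 60 / L ^ 4) a ha (fun i p => (1 - Q (i + 1)) *ᵥ a p) hT0 hκ hg0 heo0
    (fun i _ p => ((hQ.sq_proj (i + 1) (a p)).2).trans (ha p))
    (by
      intro i _ j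
      have h1 := hQ.old_row hW1 (i + 1) j
      have h2 : (1 / 2 : ℝ) ^ (w * i) = (1 / W) ^ i := by
        rw [pow_mul, hWdef]
        congr 1
        rw [_root_.one_div_pow]
      rw [h2]
      calc (1 / W) ^ i * ∑ p, (((1 - Q (i + 1)) *ᵥ a p) j) ^ 2
          ≤ (1 / W) ^ i * (W ^ (i + 1 + 1) / W ^ 12) := by gcongr
        _ = eo := by
            rw [heo, _root_.one_div_pow, show i + 1 + 1 = i + 2 by ring, pow_add W i 2]
            field_simp)
    (by
      have h1 : (Fintype.card ι : ℝ) ≤ 2 ^ (2 * l) := by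
        refine hn.trans ?_
        rw [pow_mul]
        have h2 : Real.exp l = Real.exp 1 ^ l := by rw [← Real.exp_nat_mul, mul_one]
        rw [h2]
        apply pow_le_pow_left₀ (Real.exp_pos 1).le
        have := Real.exp_one_lt_d9
        norm_num
        linarith
      exact_mod_cast h1)
    hη0 hη1 hW0 (by positivity) (by norm_num) (by positivity)
    (by
      refine hb1.trans ?_
      have h1 : (η / 2) ^ 2 = 1 / (4 * L ^ 10) := by
        rw [hη, div_pow, _root_.one_div_pow, ← pow_mul]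
        field_simp
        norm_num
        ring
      rw [h1]
      have h2 : L ^ 20 * (1 / (4 * L ^ 10)) ≤ W * (1 / (4 * L ^ 10)) := by gcongr
      refine le_trans ?_ h2
      have h3 : L ^ 20 * (1 / (4 * L ^ 10)) = L ^ 10 / 4 := by
        field_simp
      rw [h3]
      have h4 : L ^ 10 = L ^ 6 * L ^ 4 := by ring
      have h5 : (1000 : ℝ) ≤ L ^ 6 := hL1000.trans (by
        calc L = L ^ 1 := (pow_one L).symm
          _ ≤ L ^ 6 := pw 1 6 (by norm_num))
      rw [h4]
      have h6 : 0 < L ^ 4 := by positivity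
      nlinarith)
    hb1
    (by
      calc 12 * ((5 * l : ℕ) : ℝ) * (eo / g ^ 4) * K2
          = (12 * ((5 * l : ℕ) : ℝ) * K2) * (eo / g ^ 4) := by ring
        _ ≤ (60 * L ^ 4) * (1 / L ^ 184) := by gcongr
        _ ≤ 1 := by
            rw [mul_one_div, div_le_one (by positivity)]
            calc 60 * L ^ 4 ≤ L * L ^ 4 := by gcongr
              _ = L ^ 5 := by ring
              _ ≤ L ^ 184 := pw 5 184 (by norm_num))
    (by
      have h1 : g ^ 2 = 1 / L ^ 8 := by
        rw [hg, _root_.one_div_pow, ← pow_mul]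
      calc 12 * ((5 * l : ℕ) : ℝ) * g ^ 2 * K2
          = (12 * ((5 * l : ℕ) : ℝ) * K2) * g ^ 2 := by ring
        _ ≤ (60 * L ^ 4) * (1 / L ^ 8) := by
            rw [h1]
            gcongr
        _ = 60 / L ^ 4 := by
            rw [mul_one_div, div_eq_div_iff (by positivity) (by positivity)]
            ring)
    (by
      -- probability
      set M : ℝ := (Fintype.card m : ℝ) with hM
      have hM0 : 0 ≤ M := by positivity
      have hE2 : 1 ≤ Real.exp (2 * L) := Real.one_le_exp (by positivity)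
      have h1 : 1 + 2 * ((2 * l : ℕ) : ℝ) * (l : ℝ) + (l : ℝ) ^ 2 + (l : ℝ) * M
          ≤ 7 * L ^ 2 * Real.exp (2 * L) := by
        push_cast
        rw [← hL]
        have e1 : L * M ≤ L ^ 2 * Real.exp (2 * L) := by
          calc L * M ≤ L * Real.exp (2 * L) := by
                rw [hL]
                gcongr
            _ ≤ L ^ 2 * Real.exp (2 * L) := by
                apply mul_le_mul_of_nonneg_right _ (by positivity)
                nlinarith
        have e2 : 1 + 2 * (2 * L) * L + L ^ 2 ≤ 6 * L ^ 2 := by nlinarith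
        have e3 : 6 * L ^ 2 ≤ 6 * L ^ 2 * Real.exp (2 * L) := by
          have : 0 ≤ 6 * L ^ 2 := by positivity
          nlinarith
        linarith
      have h2 : ((w * l : ℕ) : ℝ) ≤ L ^ 2 := by
        push_cast
        rw [← hL]
        have : (w : ℝ) ≤ L := by nlinarith
        nlinarith
      have h3 : M ≤ Real.exp (2 * L) := by rw [hL]; exact hm
      have h4 : Real.exp (-((5 * l : ℕ) : ℝ)) = Real.exp (-(5 * L)) := by rw [hκc]
      have h5 : 7 * L ^ 4 < Real.exp L := by
        -- `exp L ≥ L⁵ / 5!`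
        have h6 := Real.pow_div_factorial_le_exp L hL0.le 5
        have h7 : L ^ 5 / (Nat.factorial 5 : ℝ) > 7 * L ^ 4 := by
          rw [gt_iff_lt, lt_div_iff₀ (by positivity)]
          have : (Nat.factorial 5 : ℝ) = 120 := by norm_num [Nat.factorial]
          rw [this]
          have h8 : 0 < L ^ 4 := by positivity
          nlinarith
        linarith
      calc (1 + 2 * ((2 * l : ℕ) : ℝ) * (l : ℝ) + (l : ℝ) ^ 2 + (l : ℝ) * M) *
            (((w * l : ℕ) : ℝ) * (M * Real.exp (-((5 * l : ℕ) : ℝ))))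
          ≤ (7 * L ^ 2 * Real.exp (2 * L)) * (L ^ 2 * (Real.exp (2 * L) * Real.exp (-(5 * L)))) := by
            rw [h4]
            gcongr
        _ = 7 * L ^ 4 * (Real.exp (2 * L) * Real.exp (2 * L) * Real.exp (-(5 * L))) := by ring
        _ = 7 * L ^ 4 * Real.exp (-L) := by
            rw [← Real.exp_add, ← Real.exp_add]
            congr 2
            ring
        _ < 1 := by
            rw [Real.exp_neg, ← div_eq_mul_inv, div_lt_one (Real.exp_pos _)]
            exact h5)
    (by
      push_cast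
      rw [← hL]
      calc 8 * (2 * L) * L ^ 2 * (eo / g ^ 4) ≤ 8 * (2 * L) * L ^ 2 * (1 / L ^ 184) := by gcongr
        _ = 16 / L ^ 181 := by
            rw [mul_one_div, div_eq_div_iff (by positivity) (by positivity)]
            ring
        _ ≤ η / 2 := by
            rw [hη, div_div, div_le_div_iff₀ (by positivity) (by positivity)]
            have : 16 * (L ^ 5 * 2) ≤ L * L ^ 5 := by
              have h8 : 0 < L ^ 5 := by positivity
              nlinarith
            calc 16 * (L ^ 5 * 2) ≤ L * L ^ 5 := this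
              _ = L ^ 6 := by ring
              _ ≤ L ^ 181 := pw 6 181 (by norm_num)
              _ = 1 * L ^ 181 := by ring)
    (by
      push_cast
      rw [← hL]
      have h1 : η / 2 * L ^ 20 ≤ η / 2 * W := by gcongr
      refine le_trans ?_ h1
      have h2 : η / 2 * L ^ 20 = L ^ 15 / 2 := by
        rw [hη]
        field_simp
      rw [h2]
      have h3 : 2 * (2 * L) * L * (2 * L * 1 + 60 * L ^ 4) ≤ 4 * L ^ 2 * (62 * L ^ 4) := by
        have : 2 * L * 1 ≤ 2 * L ^ 4 := by
          have := pw 1 4 (by norm_num)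
          linarith
        have h9 : 0 ≤ 4 * L ^ 2 := by positivity
        nlinarith
      refine h3.trans ?_
      have h4 : (1000 : ℝ) ≤ L ^ 9 := hL1000.trans (by
        calc L = L ^ 1 := (pow_one L).symm
          _ ≤ L ^ 9 := pw 1 9 (by norm_num))
      have h5 : L ^ 15 = L ^ 9 * L ^ 6 := by ring
      rw [h5]
      have h6 : 4 * L ^ 2 * (62 * L ^ 4) = 248 * L ^ 6 := by ring
      rw [h6]
      have h7 : 0 < L ^ 6 := by positivity
      nlinarith)
    (by
      have h1 : (1 / 2 : ℝ) ^ (w * l) * Fintype.card ι ≤ 1 := by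
        have h2 : (Fintype.card ι : ℝ) ≤ 2 ^ (w * l) := by
          refine hn.trans ?_
          have h3 : 2 ≤ w := by
            by_contra hcon
            have hw2 : w = 1 := by omega
            rw [hw2] at hw
            have : 2 < l ^ 20 := by
              calc 2 < l := by omega
                _ = l ^ 1 := (pow_one l).symm
                _ ≤ l ^ 20 := Nat.pow_le_pow_right (by omega) (by norm_num)
            omega
          calc Real.exp l = Real.exp 1 ^ l := by rw [← Real.exp_nat_mul, mul_one]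
            _ ≤ (4 : ℝ) ^ l := by
                apply pow_le_pow_left₀ (Real.exp_pos 1).le
                have := Real.exp_one_lt_d9
                linarith
            _ = 2 ^ (2 * l) := by rw [pow_mul]; norm_num
            _ ≤ 2 ^ (w * l) := pow_le_pow_right₀ (by norm_num) (Nat.mul_le_mul_right l h3)
        rw [_root_.one_div_pow]
        rw [one_div, inv_mul_le_iff₀ (by positivity), mul_one]
        exact h2
      refine h1.trans ?_
      rw [hη]
      have h2 : 1 / L ^ 5 * L ^ 20 ≤ 1 / L ^ 5 * W := by gcongr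
      refine le_trans ?_ h2
      have h3 : 1 / L ^ 5 * L ^ 20 = L ^ 15 := by
        field_simp
      rw [h3]
      exact one_le_pow₀ hL1)
  obtain ⟨bt, hb1, hb2, hb3⟩ := exists_bt V U hUT h0 h0' hU
  have hpow : ∀ s : ℕ, (1 / 2 : ℝ) ^ (w * s) = (1 / W) ^ s := by
    intro s
    rw [pow_mul, hWdef]
    congr 1
    rw [_root_.one_div_pow]
  refine ⟨bt, hb1, ?_, ?_, ?_⟩
  · intro s hs v
    have h1 := hS1 s hs v
    rw [hpow] at h1
    have h2 : univ.filter (fun p => s < bt p) = U s := by
      ext p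
      simp only [Finset.mem_filter, Finset.mem_univ, true_and]
      exact hb2 s hs p
    rw [h2]
    exact h1
  · intro j
    have h1 := hS2 j
    have h2 : ∑ p ∈ univ.filter (fun p => 1 ≤ bt p ∧ |((1 - Q (bt p)) *ᵥ a p) j| < 1 / (l : ℝ) ^ 4),
        (((1 - Q (bt p)) *ᵥ a p) j) ^ 2
        = ∑ i ∈ range l, ∑ p ∈ V (i + 1), (if |((1 - Q (i + 1)) *ᵥ a p) j| < g then
          (((1 - Q (i + 1)) *ᵥ a p) j) ^ 2 else 0) := by
      rw [← Finset.filter_filter, Finset.sum_filter,
        ← Finset.sum_fiberwise_of_maps_to (g := fun p => bt p - 1) (t := range l)]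
      · apply Finset.sum_congr rfl
        intro i hi
        have hi' := Finset.mem_range.mp hi
        have h3 : (univ.filter (fun p => 1 ≤ bt p)).filter (fun p => bt p - 1 = i) = V (i + 1) := by
          ext p
          simp only [Finset.mem_filter, Finset.mem_univ, true_and]
          rw [← hb3 i hi' p]
          omega
        rw [h3]
        apply Finset.sum_congr rfl
        intro p hp
        have h4 := (hb3 i hi' p).mpr hp
        rw [h4]
      · intro p hp
        have h5 := hb1 p
        simp only [Finset.mem_filter, Finset.mem_univ, true_and] at hp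
        rw [Finset.mem_range]
        omega
    rw [h2]
    refine h1.trans ?_
    rw [← hL]
    have h3 : eo ≤ 1 / L ^ 5 := by
      rw [heo]
      apply one_div_le_one_div_of_le (by positivity)
      calc L ^ 5 ≤ L ^ 20 := pw 5 20 (by norm_num)
        _ ≤ W := hWL
        _ = W ^ 1 := (pow_one W).symm
        _ ≤ W ^ 10 := pow_le_pow_right₀ hW1 (by norm_num)
    calc L * (2 * eo + 60 / L ^ 4) ≤ L * (2 * (1 / L ^ 5) + 60 / L ^ 4) := by gcongr
      _ ≤ L * (62 / L ^ 4) := by
          have : 1 / L ^ 5 ≤ 1 / L ^ 4 := one_div_le_one_div_of_le (by positivity) (pw 4 5 (by norm_num))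
          have h4 : 2 * (1 / L ^ 5) + 60 / L ^ 4 ≤ 62 / L ^ 4 := by
            have e1 : 62 / L ^ 4 = 2 * (1 / L ^ 4) + 60 / L ^ 4 := by ring
            linarith
          exact mul_le_mul_of_nonneg_left h4 hL0.le
      _ = 62 / L ^ 3 := by
          rw [mul_div_assoc', div_eq_div_iff (by positivity) (by positivity)]
          ring
      _ ≤ 1 / L ^ 2 := by
          rw [div_le_div_iff₀ (by positivity) (by positivity)]
          have h8 : 0 < L ^ 2 := by positivity
          nlinarith
  · intro j p p' hp hp' h1 h2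
    have e1 := hb1 p
    have e2 := hb1 p'
    have e3 : bt p - 1 + 1 = bt p := by omega
    have e4 : bt p' - 1 + 1 = bt p' := by omega
    have h3 : p ∈ V (bt p - 1 + 1) := (hb3 (bt p - 1) (by omega) p).mp (by omega)
    have h4 : p' ∈ V (bt p' - 1 + 1) := (hb3 (bt p' - 1) (by omega) p').mp (by omega)
    apply hS3 j (bt p - 1) (by omega) (bt p' - 1) (by omega) p h3 p' h4
    · rw [e3]
      exact h1
    · rw [e4]
      exact h2

end
end KH98
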